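import Mathlib

set_option linter.all false

section

/-! Definitions and steps for the uniform percolation threshold of simply connected complexes. -/

open MeasureTheory ProbabilityTheory Filter Topology

namespace Pool.Agent.MP_295da9_pr.U

variable {V : Type}

/-- joined by a walk inside `S` -/
def R (G : SimpleGraph V) (S : Set V) (a b : V) : Prop := ∃ q : G.Walk a b, ∀ x ∈ q.support, x ∈ S

/-- any two points of `S` are joined inside `S` -/
def Conn (G : SimpleGraph V) (S : Set V) : Prop := ∀ a ∈ S, ∀ b ∈ S, R G S a b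

/-- degrees at most `D` -/
def Deg (G : SimpleGraph V) (D : ℕ) : Prop :=
  ∀ v, (G.neighborSet v).Finite ∧ (G.neighborSet v).ncard ≤ D

/-- an open walk from `v` to distance `n` -/
def Arm (G : SimpleGraph V) (v : V) (n : ℕ) : Set (Set V) := {ω | ∃ w, n ≤ G.dist v w ∧ R G ω v w}

/-- integer cocycles have potentials -/
def Coc (G : SimpleGraph V) : Prop := ∀ φ : V → V → ℤ,
  (∀ x y z, (x = y ∨ G.Adj x y) → (y = z ∨ G.Adj y z) → (x = z ∨ G.Adj x z) →
    φ x y + φ y z = φ x z) → ∃ f : V → ℤ, ∀ x y, G.Adj x y → φ x y = f y - f x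

/-- the bottleneck property -/
def Bot (G : SimpleGraph V) (k : ℕ) : Prop := ∀ x m y, G.dist x m + G.dist m y = G.dist x y →
  ∀ q : G.Walk x y, ∃ z ∈ q.support, G.dist m z ≤ k

/-- quasi-isometric to a tree -/
def QT (G : SimpleGraph V) : Prop := ∃ (W : Type) (T : SimpleGraph W) (f : V → W) (L : ℕ),
  T.IsTree ∧ (∀ u v, T.dist (f u) (f v) ≤ L * G.dist u v + L ∧
    G.dist u v ≤ L * T.dist (f u) (f v) + L) ∧ ∀ w, ∃ v, T.dist (f v) w ≤ L

/-- uniformly subexponential growth -/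
def Sub (G : SimpleGraph V) : Prop := ∀ l : ℝ, 1 < l → ∃ C : ℝ, ∀ (v : V) (n : ℕ),
  ({w | G.dist v w ≤ n}.ncard : ℝ) ≤ C * l ^ n

/-- uniform decay of the arm probabilities -/
def Dec (G : SimpleGraph V) (p : unitInterval) : Prop :=
  ∀ ε : ℝ, 0 < ε → ∃ n : ℕ, ∀ v, (setBernoulli Set.univ p).real (Arm G v n) ≤ ε

/-- a triangle whose three sides are nowhere close to each other -/
def Fat (G : SimpleGraph V) (r : ℕ) (A : Fin 3 → Set V) : Prop :=
  (∀ i, Conn G (A i)) ∧ (∀ i j, (A i ∩ A j).Nonempty) ∧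
    ∀ a : Fin 3 → V, (∀ i, a i ∈ A i) → ∃ i j, r < G.dist (a i) (a j)

/-- the points joined to all three sides outside `W` -/
def Big (G : SimpleGraph V) (A : Fin 3 → Set V) (W : Set V) : Set V :=
  {u | ∀ i, ∃ a ∈ A i, R G Wᶜ u a}

/-- the event depends only on the states in `D` -/
def Dep (D : Finset V) (E : Set (Set V)) : Prop :=
  ∀ ω ω' : Set V, (∀ x ∈ D, x ∈ ω ↔ x ∈ ω') → ω ∈ E → ω' ∈ E

/-- simply connected complexes have no integer cocycles -/
def GeoSt : Prop := ∀ (E : Type) [NormedAddCommGroup E] [NormedSpace ℝ E]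
  (K : Geometry.SimplicialComplex ℝ E) (V : Type) (G : SimpleGraph V) (pos : V → E),
  Function.Injective pos → Set.range pos = K.vertices →
  (∀ u v, G.Adj u v ↔ u ≠ v ∧ ∃ s ∈ K.faces, (s : Set E) = {pos u, pos v}) →
  (∀ x ∈ K.space, ∃ N ∈ 𝓝 x, {s ∈ K.faces | (convexHull ℝ (s : Set E) ∩ N).Nonempty}.Finite) →
  SimplyConnectedSpace K.space → LocallyPathConnectedSpace K.space → Coc G

/-- quasi-trees have bottlenecks -/
def ManA : Prop := ∀ (V : Type) (G : SimpleGraph V), G.Connected → QT G → ∃ k, Bot G k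

/-- bottlenecks give a quasi-tree -/
def ManB : Prop := ∀ (V : Type) (G : SimpleGraph V) (k : ℕ), G.Connected → Bot G k → QT G

/-- without bottlenecks there are fat triangles -/
def FatSt : Prop := ∀ (V : Type) (G : SimpleGraph V) (r : ℕ), G.Connected → ¬ Bot G (2 * r) →
  ∃ A, Fat G r A

/-- balls -/
def BallSt : Prop := ∀ (V : Type) (G : SimpleGraph V) (D : ℕ), G.Connected → Deg G D →
  ∀ (v : V) (n : ℕ), {w | G.dist v w ≤ n}.Finite ∧ {w | G.dist v w ≤ n}.ncard ≤ (D + 1) ^ n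

/-- a point all of whose small cut sets pass through few vertices -/
def PickSt : Prop := ∀ (V : Type) (G : SimpleGraph V) (r I : ℕ) (A : Fin 3 → Set V), G.Connected →
  (∀ (v : V) (n : ℕ), {w | G.dist v w ≤ n}.Finite) → Fat G r A → 2 ^ I ≤ r →
  ∃ (v : V) (T : ℕ → Finset V), ∀ k ≤ I, (T k).card ≤ 2 ^ (k + 1) ∧ ∀ W : Finset V,
    Conn G W → W.card ≤ 2 ^ k → v ∉ Big G A W → ∃ t ∈ T k, t ∈ W

/-- a small cluster is cut off by a connected closed set -/
def CutSt : Prop := ∀ (V : Type) (G : SimpleGraph V) (r n : ℕ) (A : Fin 3 → Set V) (v : V)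
  (ω : Set V), G.Connected → Coc G → Fat G r A → 2 * n ≤ r → v ∈ ω → ω ∉ Arm G v n →
  ∃ W : Set V, Conn G W ∧ (∀ x ∈ W, x ∉ ω ∧ G.dist v x ≤ n) ∧ v ∉ Big G A W

/-- the contour estimate -/
def PeiSt : Prop := ∀ (V : Type) (G : SimpleGraph V) (D : ℕ) (v : V) (B : ℕ → Finset V)
  (S : Set (Set V)) (p : unitInterval), 1 ≤ D → Deg G D → (∀ j, (B j).card ≤ D ^ (j + 1)) →
  (∀ ω : Set V, v ∈ ω → ω ∉ S → ∃ (W : Finset V) (j : ℕ), Conn G W ∧ W.card = j + 1 ∧
    (∀ x ∈ W, x ∉ ω) ∧ ∃ t ∈ B j, t ∈ W) →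
  4 * (D : ℝ) ^ 3 * (1 - p) ≤ 1 → 1 / 4 ≤ (setBernoulli Set.univ p).real S

/-- events on disjoint finite sets are independent -/
def IndSt : Prop := ∀ (V : Type) (p : unitInterval) (D D' : Finset V) (E E' : Set (Set V)),
  Dep D E → MeasurableSet E ∧ (Dep D' E' → Disjoint D D' →
    (setBernoulli Set.univ p).real (E ∩ E') =
      (setBernoulli Set.univ p).real E * (setBernoulli Set.univ p).real E')

/-- quasi-trees of subexponential growth have uniform decay -/
def DecSt : Prop := ∀ (V : Type) (G : SimpleGraph V) (D k : ℕ) (p : unitInterval), G.Connected →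
  Deg G D → Bot G k → Sub G → p < 1 → Dec G p

/-- uniform decay bounds the growth -/
def ExpSt : Prop := ∀ (V : Type) (G : SimpleGraph V) (D : ℕ), G.Connected → Deg G D →
  (∀ p : unitInterval, p < 1 → Dec G p) → Sub G

theorem R.refl {G : SimpleGraph V} {S : Set V} {a : V} (h : a ∈ S) : R G S a a :=
  ⟨.nil, by simpa using h⟩

theorem R.left {G : SimpleGraph V} {S : Set V} {a b : V} (h : R G S a b) : a ∈ S :=
  let ⟨q, hq⟩ := h; hq a q.start_mem_support

theorem R.right {G : SimpleGraph V} {S : Set V} {a b : V} (h : R G S a b) : b ∈ S :=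
  let ⟨q, hq⟩ := h; hq b q.end_mem_support

theorem R.symm {G : SimpleGraph V} {S : Set V} {a b : V} (h : R G S a b) : R G S b a :=
  let ⟨q, hq⟩ := h; ⟨q.reverse, by simpa using hq⟩

theorem R.trans {G : SimpleGraph V} {S : Set V} {a b c : V} (h : R G S a b) (h' : R G S b c) :
    R G S a c :=
  let ⟨q, hq⟩ := h; let ⟨q', hq'⟩ := h'
  ⟨q.append q', fun x hx => ((q.mem_support_append_iff q').1 hx).elim (hq x) (hq' x)⟩

theorem R.mono {G : SimpleGraph V} {S S' : Set V} {a b : V} (h : R G S a b) (hS : S ⊆ S') :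
    R G S' a b :=
  let ⟨q, hq⟩ := h; ⟨q, fun x hx => hS (hq x hx)⟩

theorem R.head {G : SimpleGraph V} {S : Set V} {a b c : V} (h : G.Adj a b) (ha : a ∈ S)
    (h' : R G S b c) : R G S a c :=
  let ⟨q, hq⟩ := h'
  ⟨.cons h q, fun x hx => by
    rw [SimpleGraph.Walk.support_cons, List.mem_cons] at hx
    exact hx.elim (fun e => e ▸ ha) (hq x)⟩

theorem R.tail {G : SimpleGraph V} {S : Set V} {a b c : V} (h : R G S a b) (h' : G.Adj b c)
    (hc : c ∈ S) : R G S a c := (R.head h'.symm hc h.symm).symm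

/-- every vertex of a walk inside `S` is joined to the start inside `S` -/
theorem R.of_mem {G : SimpleGraph V} {S : Set V} {a b x : V} (q : G.Walk a b)
    (hq : ∀ y ∈ q.support, y ∈ S) (hx : x ∈ q.support) : R G S a x := by
  classical
  exact ⟨q.takeUntil x hx, fun y hy => hq y (q.support_takeUntil_subset_support hx hy)⟩

end Pool.Agent.MP_295da9_pr.U

end

section

/-! The selection of a point with few small cut sets, and the cut set of a small cluster. -/

open MeasureTheory ProbabilityTheory Filter Topology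

namespace Pool.Agent.MP_295da9_pr.U

variable {V : Type} {G : SimpleGraph V} {r : ℕ} {A : Fin 3 → Set V}

theorem miss_Pick (hA : Fat G r A) {W : Set V} (hW : ∀ a ∈ W, ∀ b ∈ W, G.dist a b ≤ r) :
    ∃ i, ∀ x ∈ A i, x ∉ W := by
  by_contra h
  push Not at h
  choose a ha ha' using h
  obtain ⟨i, j, hij⟩ := hA.2.2 a ha
  exact absurd (hW _ (ha' i) _ (ha' j)) (by omega)

theorem big_of_Pick (hA : Fat G r A) {W : Set V} {i : Fin 3} (hi : ∀ x ∈ A i, x ∉ W) {u a : V}
    (ha : a ∈ A i) (h : R G Wᶜ u a) : u ∈ Big G A W := fun j => by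
  obtain ⟨b, hb, hb'⟩ := hA.2.1 i j
  exact ⟨b, hb', h.trans ((hA.1 i a ha b hb).mono hi)⟩

theorem big_trans_Pick {W : Set V} {u z : V} (h : R G Wᶜ z u) (hu : u ∈ Big G A W) :
    z ∈ Big G A W := fun i =>
  let ⟨a, ha, h'⟩ := hu i; ⟨a, ha, h.trans h'⟩

theorem big_not_Pick {W : Set V} {u : V} (hu : u ∈ Big G A W) : u ∉ W :=
  let ⟨_, _, h⟩ := hu 0; h.left

theorem big_adj_Pick {W : Set V} {u z : V} (hu : u ∈ Big G A W) (h : G.Adj u z) (hz : z ∉ W) :
    z ∈ Big G A W :=
  big_trans_Pick (R.head h.symm hz (R.refl (big_not_Pick hu))) hu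

/-- a walk outside `W` from a point of the big set stays in the big set -/
theorem big_walk_Pick {W : Set V} {u a : V} (hu : u ∈ Big G A W) (h : R G Wᶜ u a) :
    R G (Big G A W) u a :=
  let ⟨q, hq⟩ := h; ⟨q, fun _ hx => big_trans_Pick (R.of_mem q hq hx).symm hu⟩

theorem big_sub_Pick {W W' : Set V} (h : ∀ x ∈ Big G A W', x ∉ W) : Big G A W' ⊆ Big G A W :=
  fun _ hu i => let ⟨a, ha, h'⟩ := hu i; ⟨a, ha, (big_walk_Pick hu h').mono h⟩

theorem exit_Pick {U : Set V} {a b : V} (q : G.Walk a b) (ha : a ∈ U) (hb : b ∉ U) :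
    ∃ u ∈ q.support, ∃ z ∈ q.support, u ∈ U ∧ z ∉ U ∧ G.Adj u z := by
  induction q with
  | nil => exact absurd ha hb
  | @cons x y _ h q ih =>
    by_cases hy : y ∈ U
    · obtain ⟨u, hu, z, hz, h'⟩ := ih hy hb
      exact ⟨u, by simp [hu], z, by simp [hz], h'⟩
    · exact ⟨x, by simp, y, by simp, ha, hy, h⟩

theorem small_Pick {W : Finset V} (hW : Conn G W) {a b : V} (ha : a ∈ W) (hb : b ∈ W) :
    G.dist a b ≤ W.card := by
  classical
  obtain ⟨q, hq⟩ := hW a ha b hb
  have h1 : q.bypass.support.toFinset ⊆ W := fun x hx =>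
    hq x (q.support_bypass_subset_support (List.mem_toFinset.1 hx))
  have h2 := Finset.card_le_card h1
  rw [List.toFinset_card_of_nodup q.bypass_isPath.support_nodup,
    SimpleGraph.Walk.length_support] at h2
  have h3 := SimpleGraph.dist_le q.bypass
  omega

theorem big_empty_Pick (hc : G.Connected) (hA : Fat G r A) (v : V) : v ∈ Big G A ∅ := fun i => by
  obtain ⟨a, ha, -⟩ := hA.2.1 i i
  obtain ⟨q⟩ := hc v a
  exact ⟨a, ha, q, by simp⟩

theorem fin_Pick (hc : G.Connected) (hb : ∀ (v : V) (n : ℕ), {w | G.dist v w ≤ n}.Finite)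
    (hA : Fat G r A) (v : V) {l : ℕ} (hl : l ≤ r) :
    {W : Finset V | Conn G W ∧ W.card ≤ l ∧ v ∉ Big G A W}.Finite := by
  classical
  choose a ha using fun i => hA.2.1 i i
  refine ((hb v (∑ i, G.dist v (a i) + r)).toFinset.powerset.finite_toSet).subset ?_
  rintro W ⟨h1, h2, h3⟩
  have hs : ∀ x ∈ (W : Set V), ∀ y ∈ (W : Set V), G.dist x y ≤ r := fun x hx y hy =>
    (small_Pick h1 hx hy).trans (h2.trans hl)
  obtain ⟨i, hi⟩ := miss_Pick hA hs
  obtain ⟨q, hq⟩ := hc.exists_walk_length_eq_dist v (a i)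
  obtain ⟨x, hx, hxW⟩ : ∃ x ∈ q.support, x ∈ (W : Set V) := by
    by_contra h
    push Not at h
    exact h3 (big_of_Pick hA hi (ha i).1 ⟨q, h⟩)
  have h4 : G.dist v x ≤ ∑ i, G.dist v (a i) :=
    ((SimpleGraph.dist_le (q.takeUntil x hx)).trans ((q.length_takeUntil_le_length hx).trans hq.le)).trans
      (Finset.single_le_sum (f := fun i => G.dist v (a i)) (fun _ _ => Nat.zero_le _)
        (Finset.mem_univ i))
  rw [Finset.mem_coe, Finset.mem_powerset]
  intro y hy
  rw [Set.Finite.mem_toFinset]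
  exact (hc.dist_triangle (v := x)).trans (add_le_add h4 (hs x hxW y hy))

theorem step_Pick (hc : G.Connected) (hb : ∀ (v : V) (n : ℕ), {w | G.dist v w ≤ n}.Finite)
    (hA : Fat G r A) (v : V) {l : ℕ} (hl : l ≤ r) : ∃ (v' : V) (W0 : Finset V), W0.card ≤ l ∧
      ∀ W : Finset V, Conn G W → v' ∉ Big G A W → (∀ t ∈ W0, t ∉ W) →
        v ∉ Big G A W ∧ l < W.card := by
  by_cases hF : {W : Finset V | Conn G W ∧ W.card ≤ l ∧ v ∉ Big G A W}.Nonempty
  swap
  · refine ⟨v, ∅, by simp, fun W h1 h2 _ => ⟨h2, ?_⟩⟩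
    by_contra h
    exact hF ⟨W, h1, by omega, h2⟩
  obtain ⟨W0, hW0⟩ := (fin_Pick hc hb hA v hl).exists_minimalFor
    (fun W : Finset V => Big G A W) _ hF
  obtain ⟨h1, h2, h3⟩ := hW0.1
  obtain ⟨v', hv'⟩ : W0.Nonempty := by
    rw [Finset.nonempty_iff_ne_empty]
    rintro rfl
    exact h3 (by simpa using big_empty_Pick hc hA v)
  refine ⟨v', W0, h2, fun W h4 h5 h6 => ?_⟩
  have h7 : Big G A W ⊆ Big G A W0 := big_sub_Pick fun x hx hx' =>
    h5 (big_trans_Pick ((h1 v' hv' x hx').mono fun t ht => h6 t ht) hx)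
  have h8 : v ∉ Big G A W := fun h => h3 (h7 h)
  refine ⟨h8, ?_⟩
  by_contra h
  have h9 : Big G A W0 ⊆ Big G A W := hW0.2 ⟨h4, by omega, h8⟩ h7
  obtain ⟨i, hi⟩ := miss_Pick hA (W := W0) fun x hx y hy =>
    (small_Pick h1 hx hy).trans (h2.trans hl)
  obtain ⟨a, ha, -⟩ := hA.2.1 i i
  obtain ⟨q⟩ := hc a v
  obtain ⟨u, -, z, -, hu, hz, huz⟩ :=
    exit_Pick q (big_of_Pick hA hi ha (R.refl (hi a ha))) h3
  have e1 : z ∈ (W0 : Set V) := by
    by_contra e
    exact hz (big_adj_Pick hu huz e)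
  exact hz (h7 (big_adj_Pick (h9 hu) huz (h6 z e1)))

theorem pick : PickSt := by
  classical
  intro V G r I A hc hb hA hI
  have key : ∀ d i, i + d = I + 1 → ∃ (v : V) (T : ℕ → Finset V), ∀ k, i ≤ k → k ≤ I →
      (T k).card + 2 ^ i ≤ 2 ^ (k + 1) ∧ ∀ W : Finset V,
        Conn G W → W.card ≤ 2 ^ k → v ∉ Big G A W → ∃ t ∈ T k, t ∈ W := by
    intro d
    induction d with
    | zero =>
      intro i hi
      obtain ⟨v⟩ := hc.nonempty
      exact ⟨v, fun _ => ∅, fun k h1 h2 => by omega⟩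
    | succ d ih =>
      intro i hi
      obtain ⟨v, T, hT⟩ := ih (i + 1) (by omega)
      obtain ⟨v', W0, h1, h2⟩ := step_Pick hc hb hA v (l := 2 ^ i)
        ((Nat.pow_le_pow_right (by norm_num) (by omega)).trans hI)
      refine ⟨v', fun k => if k = i then W0 else T k ∪ W0, fun k hk hk' => ?_⟩
      by_cases e : k = i
      · subst e
        simp only [if_true]
        refine ⟨by rw [pow_succ]; omega, fun W h3 h4 h5 => ?_⟩
        by_contra h6
        push Not at h6
        exact absurd (h2 W h3 h5 h6).2 (by omega)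
      · simp only [if_neg e]
        obtain ⟨h3, h4⟩ := hT k (by omega) hk'
        refine ⟨?_, fun W h5 h6 h7 => ?_⟩
        · have := Finset.card_union_le (T k) W0
          rw [pow_succ 2 i] at h3
          omega
        · by_cases h8 : ∀ t ∈ W0, t ∉ W
          · obtain ⟨t, ht, ht'⟩ := h4 W h5 h6 (h2 W h5 h7 h8).1
            exact ⟨t, Finset.mem_union_left _ ht, ht'⟩
          · push Not at h8
            obtain ⟨t, ht, ht'⟩ := h8
            exact ⟨t, Finset.mem_union_right _ ht, ht'⟩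
  obtain ⟨v, T, hT⟩ := key (I + 1) 0 (by omega)
  exact ⟨v, T, fun k hk => ⟨by have := (hT k (Nat.zero_le _) hk).1; omega,
    (hT k (Nat.zero_le _) hk).2⟩⟩

theorem const_Cut {U : Set V} {f : V → ℤ} (h : ∀ x y, x ∈ U → y ∈ U → G.Adj x y → f x = f y)
    {a b : V} (hab : R G U a b) : f a = f b := by
  obtain ⟨q, hq⟩ := hab
  induction q with
  | nil => rfl
  | @cons x y _ hxy q ih =>
    rw [h x y (hq x (by simp)) (hq y (by simp)) hxy]
    exact ih fun t ht => hq t (by simp [ht])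

/-- finitely supported integer cocycles have potentials -/
def CocF (G : SimpleGraph V) : Prop := ∀ (φ : V → V → ℤ) (F : Set V), F.Finite →
  (∀ x y z, (x = y ∨ G.Adj x y) → (y = z ∨ G.Adj y z) → (x = z ∨ G.Adj x z) →
    φ x y + φ y z = φ x z) → (∀ x y, x ∉ F → (x = y ∨ G.Adj x y) → φ x y = 0) →
  ∃ f : V → ℤ, ∀ x y, G.Adj x y → φ x y = f y - f x

theorem bdy_Cut (hco : CocF G) {U F : Set V} (hF : F.Finite)
    (hUF : ∀ x y, x ∈ U → y ∉ U → G.Adj x y → x ∈ F ∧ y ∈ F) (h1 : Conn G U) (h2 : Conn G Uᶜ) :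
    Conn G {u | u ∈ U ∧ ∃ z, z ∉ U ∧ G.Adj u z} := by
  classical
  intro a ha b hb
  by_contra hab
  set W : Set V := {u | u ∈ U ∧ ∃ z, z ∉ U ∧ G.Adj u z} with hW
  let c : V → V → ℤ := fun x y => if x ∉ U ∧ R G W a y then 1 else 0
  have hin : ∀ {y}, R G W a y → y ∈ U := fun h => h.right.1
  have key : ∀ {x y z}, x ∉ U → y ∈ U → z ∈ U → (z = x ∨ G.Adj z x) → (y = z ∨ G.Adj y z) →
      R G W a y → R G W a z := by
    rintro x y z hx hy hz e1 (rfl | e2) h
    · exact h
    · exact h.tail e2 ⟨hz, x, hx, e1.resolve_left fun e => hx (e ▸ hz)⟩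
  have sy : ∀ {x y}, (x = y ∨ G.Adj x y) → y = x ∨ G.Adj y x := fun h => h.imp .symm .symm
  obtain ⟨f, hf⟩ := hco (fun x y => c x y - c y x) F hF (fun x y z e1 e2 e3 => by
    have nx : x ∉ U → ¬ R G W a x := fun h h' => h (hin h')
    have ny : y ∉ U → ¬ R G W a y := fun h h' => h (hin h')
    have nz : z ∉ U → ¬ R G W a z := fun h h' => h (hin h')
    by_cases hx : x ∈ U <;> by_cases hy : y ∈ U <;> by_cases hz : z ∈ U
    · simp [c, hx, hy, hz]
    · have : R G W a x ↔ R G W a y := ⟨key hz hx hy e2 e1, key hz hy hx e3 (sy e1)⟩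
      simp [c, hx, hy, hz, this]
    · have : R G W a x ↔ R G W a z := ⟨key hy hx hz (sy e2) e3, key hy hz hx e1 (sy e3)⟩
      simp [c, hx, hy, hz, this]
    · simp [c, hx, hy, hz, ny hy, nz hz]
    · have : R G W a y ↔ R G W a z := ⟨key hx hy hz (sy e3) e2, key hx hz hy (sy e1) (sy e2)⟩
      simp [c, hx, hy, hz, this]
    · simp [c, hx, hy, hz, nx hx, nz hz]
    · simp [c, hx, hy, hz, nx hx, ny hy]
    · simp [c, hx, hy, hz, nx hx, ny hy, nz hz]) (fun x y hxF e => by
    rcases e with rfl | e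
    · exact sub_self _
    have nx : x ∉ U → ¬ R G W a x := fun h h' => h (hin h')
    have ny : y ∉ U → ¬ R G W a y := fun h h' => h (hin h')
    by_cases hx : x ∈ U <;> by_cases hy : y ∈ U
    · simp [c, hx, hy]
    · exact absurd (hUF x y hx hy e).1 hxF
    · exact absurd (hUF y x hy hx e.symm).2 hxF
    · simp [c, nx hx, ny hy])
  obtain ⟨ha1, z, hz, haz⟩ := id ha
  obtain ⟨hb1, z', hz', hbz⟩ := id hb
  have e1 : f a = f b := const_Cut (fun x y hx hy h => by
    have := hf x y h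
    simp only [c, hx, hy, not_true, false_and, if_false] at this
    omega) (h1 a ha1 b hb1)
  have e2 : f z = f z' := const_Cut (U := Uᶜ) (fun x y hx hy h => by
    have := hf x y h
    have nx : ¬ R G W a x := fun h' => hx (hin h')
    have ny : ¬ R G W a y := fun h' => hy (hin h')
    simp only [c, nx, ny, and_false, if_false] at this
    omega) (h2 z hz z' hz')
  have e3 := hf z a haz.symm
  have e4 := hf z' b hbz.symm
  have r0 : R G W a a := R.refl ha
  simp only [c, hz, ha1, r0, not_true, not_false_iff, false_and, true_and, if_true, if_false] at e3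
  simp only [c, hab, hb1, not_true, false_and, and_false, if_false] at e4
  omega

theorem cutF {n : ℕ} {v : V} {ω : Set V} (hc : G.Connected) (hco : CocF G)
    (hb : {w | G.dist v w ≤ n}.Finite) (hA : Fat G r A) (hn : 2 * n ≤ r) (hv : v ∈ ω)
    (hω : ω ∉ Arm G v n) :
    ∃ W : Set V, Conn G W ∧ (∀ x ∈ W, x ∉ ω ∧ G.dist v x ≤ n) ∧ v ∉ Big G A W := by
  set C : Set V := {w | R G ω v w} with hC
  have hCn : ∀ w ∈ C, G.dist v w < n := fun w hw => by
    by_contra h
    exact hω ⟨w, by omega, hw⟩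
  have hvC : v ∈ C := R.refl hv
  have hsm : ∀ S : Set V, (∀ x ∈ S, G.dist v x ≤ n) → ∃ i, ∀ x ∈ A i, x ∉ S := fun S hS =>
    miss_Pick hA fun x hx y hy => by
      have h1 := hc.dist_triangle (u := x) (v := v) (w := y)
      have h2 : G.dist x v = G.dist v x := SimpleGraph.dist_comm
      have h3 := hS x hx
      have h4 := hS y hy
      omega
  set U := Big G A C with hU
  have hCU : ∀ x ∈ C, x ∉ U := fun x hx h => big_not_Pick h hx
  have c1 : Conn G U := by
    intro a ha b hb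
    obtain ⟨i, hi⟩ := hsm C fun x hx => (hCn x hx).le
    obtain ⟨x, hx, h1⟩ := ha i
    obtain ⟨y, hy, h2⟩ := hb i
    exact big_walk_Pick ha (h1.trans (((hA.1 i x hx y hy).mono hi).trans h2.symm))
  have c2 : ∀ z (q : G.Walk z v), z ∉ U → R G Uᶜ z v := by
    have hin : ∀ z ∈ C, R G Uᶜ z v := fun z hz => by
      obtain ⟨q, hq⟩ := hz
      exact R.symm ⟨q, fun x hx => hCU x (R.of_mem q hq hx)⟩
    intro z q
    clear hω hCn hsm c1
    generalize hw : v = w at q
    induction q with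
    | nil =>
      intro h
      exact R.refl h
    | @cons x y _ hxy q ih =>
      intro h
      by_cases hx : x ∈ C
      · exact hw ▸ hin x hx
      · exact R.head hxy h (ih hw fun hy => h (big_adj_Pick hy hxy.symm hx))
  have c3 : Conn G Uᶜ := fun a ha b hb => by
    obtain ⟨q⟩ := hc a v
    obtain ⟨q'⟩ := hc b v
    exact (c2 a q ha).trans (c2 b q' hb).symm
  have hW : ∀ x, (x ∈ U ∧ ∃ z, z ∉ U ∧ G.Adj x z) → x ∉ ω ∧ G.dist v x ≤ n := by
    rintro x ⟨hx, z, hz, hxz⟩
    have hzC : z ∈ C := by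
      by_contra e
      exact hz (big_adj_Pick hx hxz e)
    refine ⟨fun h => hCU x (R.tail hzC hxz.symm h) hx, ?_⟩
    have h1 := hc.dist_triangle (u := v) (v := z) (w := x)
    have h2 : G.dist z x ≤ 1 := (SimpleGraph.dist_eq_one_iff_adj.2 hxz.symm).le
    have h3 := hCn z hzC
    omega
  refine ⟨_, bdy_Cut hco hb (fun x y hx hy hxy => ⟨(hW x ⟨hx, y, hy, hxy⟩).2, (hCn y ?_).le⟩) c1 c3,
    hW, fun h => ?_⟩
  · by_contra e
    exact hy (big_adj_Pick hx hxy e)
  obtain ⟨i, hi⟩ := hsm (C ∪ {u | u ∈ U ∧ ∃ z, z ∉ U ∧ G.Adj u z}) fun x hx =>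
    hx.elim (fun h => (hCn x h).le) fun h => (hW x h).2
  obtain ⟨a, ha, q, hq⟩ := h i
  have haU : a ∈ U := big_of_Pick hA (fun x hx h => hi x hx (.inl h)) ha
    (R.refl fun h => hi a ha (.inl h))
  obtain ⟨u, hu, z, -, h1, h2, h3⟩ := exit_Pick q.reverse haU (hCU v hvC)
  exact hq u (by simpa using hu) ⟨h1, z, h2, h3⟩

end Pool.Agent.MP_295da9_pr.U

end

section

/-! Fat triangles, balls, and the assembly. -/

open MeasureTheory ProbabilityTheory Filter Topology

namespace Pool.Agent.MP_295da9_pr.U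

theorem conn_support_Asm {V : Type} {G : SimpleGraph V} {a b : V} (q : G.Walk a b) :
    Conn G {x | x ∈ q.support} := fun _ hx _ hy =>
  (R.of_mem q (fun _ h => h) hx).symm.trans (R.of_mem q (fun _ h => h) hy)

theorem geod_Asm {V : Type} {G : SimpleGraph V} (hc : G.Connected) {a b x : V} (q : G.Walk a b)
    (hq : q.length = G.dist a b) (hx : x ∈ q.support) : G.dist a x + G.dist x b = G.dist a b := by
  classical
  have h1 := SimpleGraph.dist_le (q.takeUntil x hx)
  have h2 := SimpleGraph.dist_le (q.dropUntil x hx)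
  have h3 := congrArg SimpleGraph.Walk.length (q.take_spec hx)
  rw [SimpleGraph.Walk.length_append] at h3
  have h4 := hc.dist_triangle (u := a) (v := x) (w := b)
  omega

theorem fat : FatSt := by
  intro V G r hc h
  unfold Bot at h
  push Not at h
  obtain ⟨x, m, y, hm, q, hq⟩ := h
  obtain ⟨q0, h0⟩ := hc.exists_walk_length_eq_dist x m
  obtain ⟨q1, h1⟩ := hc.exists_walk_length_eq_dist m y
  refine ⟨![{z | z ∈ q0.support}, {z | z ∈ q1.support}, {z | z ∈ q.support}], ?_, ?_, ?_⟩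
  · intro i
    fin_cases i <;> exact conn_support_Asm _
  · intro i j
    fin_cases i <;> fin_cases j
    · exact ⟨x, q0.start_mem_support, q0.start_mem_support⟩
    · exact ⟨m, q0.end_mem_support, q1.start_mem_support⟩
    · exact ⟨x, q0.start_mem_support, q.start_mem_support⟩
    · exact ⟨m, q1.start_mem_support, q0.end_mem_support⟩
    · exact ⟨m, q1.start_mem_support, q1.start_mem_support⟩
    · exact ⟨y, q1.end_mem_support, q.end_mem_support⟩
    · exact ⟨x, q.start_mem_support, q0.start_mem_support⟩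
    · exact ⟨y, q.end_mem_support, q1.end_mem_support⟩
    · exact ⟨x, q.start_mem_support, q.start_mem_support⟩
  · intro a ha
    by_contra hn
    push Not at hn
    have e0 := geod_Asm hc q0 h0 (ha 0)
    have e1 := geod_Asm hc q1 h1 (ha 1)
    have e2 := hq (a 2) (ha 2)
    have t1 := hc.dist_triangle (u := x) (v := a 0) (w := y)
    have t2 := hc.dist_triangle (u := a 0) (v := a 1) (w := y)
    have t3 := hc.dist_triangle (u := m) (v := a 0) (w := a 2)
    have t4 : G.dist m (a 0) = G.dist (a 0) m := SimpleGraph.dist_comm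
    have d1 := hn 0 1
    have d2 := hn 0 2
    omega

theorem ball : BallSt := by
  classical
  intro V G D hc hd v n
  suffices H : ∃ F : Finset V, {w | G.dist v w ≤ n} ⊆ F ∧ F.card ≤ (D + 1) ^ n by
    obtain ⟨F, h1, h2⟩ := H
    refine ⟨F.finite_toSet.subset h1, ?_⟩
    exact (Set.ncard_le_ncard h1 F.finite_toSet).trans (by rwa [Set.ncard_coe_finset])
  induction n with
  | zero =>
    refine ⟨{v}, fun w hw => ?_, by simp⟩
    have h : G.dist v w = 0 := Nat.le_zero.1 hw
    simp [(hc.dist_eq_zero_iff.1 h).symm]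
  | succ n ih =>
    obtain ⟨F, h1, h2⟩ := ih
    refine ⟨F.biUnion fun u => insert u (hd u).1.toFinset, fun w hw => ?_, ?_⟩
    · rw [Finset.mem_coe, Finset.mem_biUnion]
      by_cases h : G.dist v w ≤ n
      · exact ⟨w, h1 h, Finset.mem_insert_self _ _⟩
      · obtain ⟨q, hq⟩ := hc.exists_walk_length_eq_dist w v
        have hw' : G.dist v w ≤ n + 1 := hw
        rw [SimpleGraph.dist_comm] at hq
        cases q with
        | nil =>
          rw [SimpleGraph.Walk.length_nil] at hq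
          omega
        | @cons _ u _ hadj q =>
          rw [SimpleGraph.Walk.length_cons] at hq
          have h3 := SimpleGraph.dist_le q
          rw [SimpleGraph.dist_comm] at h3
          refine ⟨u, h1 (show G.dist v u ≤ n by omega), Finset.mem_insert_of_mem ?_⟩
          simpa using hadj.symm
    · refine (Finset.card_biUnion_le_card_mul _ _ (D + 1) fun u _ => ?_).trans ?_
      · refine (Finset.card_insert_le _ _).trans (Nat.succ_le_succ ?_)
        rw [← Set.ncard_eq_toFinset_card _ (hd u).1]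
        exact (hd u).2
      · rw [pow_succ]
        exact Nat.mul_le_mul_right _ h2

theorem arm_Asm (hE : PeiSt) {V : Type} {G : SimpleGraph V} {D : ℕ}
    (hc : G.Connected) (hd : Deg G D) (hco : CocF G) (hb : ∀ k, ¬ Bot G k) (p : unitInterval)
    (hp : 4 * ((D + 4 : ℕ) : ℝ) ^ 3 * (1 - p) ≤ 1) (n : ℕ) :
    ∃ v, 1 / 4 ≤ (setBernoulli Set.univ p).real (Arm G v n) := by
  classical
  have hn : n < 2 ^ n := Nat.lt_two_pow_self
  obtain ⟨A, hA⟩ := fat V G (2 * 2 ^ n) hc (hb _)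
  obtain ⟨v, T, hT⟩ := pick V G (2 * 2 ^ n) n A hc (fun v n => (ball V G D hc hd v n).1) hA
    (by omega)
  obtain ⟨hf, hcard⟩ := ball V G D hc hd v n
  refine ⟨v, hE V G (D + 4) v
    (fun j => if j + 1 ≤ 2 ^ n then T (Nat.clog 2 (j + 1)) else hf.toFinset) _ p (by omega)
    (fun u => ⟨(hd u).1, (hd u).2.trans (by omega)⟩) (fun j => ?_) (fun ω hv hω => ?_) hp⟩
  · split_ifs with h
    · have h1 : Nat.clog 2 (j + 1) ≤ n := (Nat.clog_le_iff_le_pow (by norm_num)).2 h
      have h2 : Nat.clog 2 (j + 1) ≤ j + 1 :=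
        (Nat.clog_le_iff_le_pow (by norm_num)).2 Nat.lt_two_pow_self.le
      refine (hT _ h1).1.trans ?_
      calc 2 ^ (Nat.clog 2 (j + 1) + 1) ≤ 2 ^ (2 * (j + 1)) :=
            Nat.pow_le_pow_right (by norm_num) (by omega)
        _ = 4 ^ (j + 1) := by rw [pow_mul]; rfl
        _ ≤ (D + 4) ^ (j + 1) := Nat.pow_le_pow_left (by omega) _
    · rw [← Set.ncard_eq_toFinset_card _ hf]
      exact hcard.trans ((Nat.pow_le_pow_left (by omega) _).trans
        (Nat.pow_le_pow_right (by omega) (by omega)))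
  · obtain ⟨W, h1, h2, h3⟩ := cutF hc hco hf hA (by omega) hv hω
    have hW : W.Finite := hf.subset fun x hx => (h2 x hx).2
    have hne : W.Nonempty := by
      by_contra h
      rw [Set.not_nonempty_iff_eq_empty] at h
      refine h3 fun i => ?_
      obtain ⟨a, ha, -⟩ := hA.2.1 i i
      obtain ⟨q⟩ := hc v a
      exact ⟨a, ha, q, by simp [h]⟩
    obtain ⟨j, hj⟩ : ∃ j, hW.toFinset.card = j + 1 :=
      Nat.exists_eq_succ_of_ne_zero (Finset.card_pos.2 (hW.toFinset_nonempty.2 hne)).ne'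
    refine ⟨hW.toFinset, j, by rwa [hW.coe_toFinset], hj,
      fun x hx => (h2 x (hW.mem_toFinset.1 hx)).1, ?_⟩
    split_ifs with h
    · refine (hT _ ((Nat.clog_le_iff_le_pow (by norm_num)).2 h)).2 _ (by rwa [hW.coe_toFinset]) ?_
        (by rwa [hW.coe_toFinset])
      rw [hj]
      exact Nat.le_pow_clog (by norm_num) _
    · obtain ⟨x, hx⟩ := hne
      exact ⟨x, hf.mem_toFinset.2 (h2 x hx).2, hW.mem_toFinset.2 hx⟩

theorem asm (hA : ManA) (hB : ManB) (hE : PeiSt) (hD : DecSt)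
    (hX : ExpSt) {V : Type} {G : SimpleGraph V} {D : ℕ} (hc : G.Connected) (hd : Deg G D)
    (hco : CocF G) : (∀ p : unitInterval, p < 1 → Dec G p) ↔ QT G ∧ Sub G := by
  constructor
  · intro h
    refine ⟨?_, hX V G D hc hd h⟩
    by_contra hq
    have h1 : (1 : ℝ) ≤ 4 * ((D + 4 : ℕ) : ℝ) ^ 3 := by
      have h2 : (1 : ℝ) ≤ ((D + 4 : ℕ) : ℝ) := by exact_mod_cast (by omega : 1 ≤ D + 4)
      have := one_le_pow₀ (n := 3) h2
      linarith
    have h2 : (0 : ℝ) < 4 * ((D + 4 : ℕ) : ℝ) ^ 3 := by linarith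
    have h3 : (0 : ℝ) < (4 * ((D + 4 : ℕ) : ℝ) ^ 3)⁻¹ := inv_pos.2 h2
    have h4 : (4 * ((D + 4 : ℕ) : ℝ) ^ 3)⁻¹ ≤ 1 := inv_le_one_of_one_le₀ h1
    let p : unitInterval := ⟨1 - (4 * ((D + 4 : ℕ) : ℝ) ^ 3)⁻¹, by constructor <;> linarith⟩
    obtain ⟨n, hn⟩ := h p (show (1 - (4 * ((D + 4 : ℕ) : ℝ) ^ 3)⁻¹ : ℝ) < 1 by linarith) (1 / 8)
      (by norm_num)
    obtain ⟨v, hv⟩ := arm_Asm hE hc hd hco (fun k hk => hq (hB V G k hc hk)) p (by
      change 4 * ((D + 4 : ℕ) : ℝ) ^ 3 * (1 - (1 - (4 * ((D + 4 : ℕ) : ℝ) ^ 3)⁻¹)) ≤ 1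
      rw [sub_sub_cancel, mul_inv_cancel₀ h2.ne']) n
    linarith [hn v]
  · rintro ⟨h1, h2⟩ p hp
    obtain ⟨k, hk⟩ := hA V G hc h1
    exact hD V G D k p hc hd hk h2 hp

end Pool.Agent.MP_295da9_pr.U

end

section

/-! Quasi-trees have bottlenecks. -/

open MeasureTheory ProbabilityTheory Filter Topology

namespace Pool.Agent.MP_295da9_pr.U

open SimpleGraph

theorem helly_ManA {W : Type} {T : SimpleGraph W} (hT : T.IsAcyclic) {s t u : W} (p : T.Walk t s)
    (r : T.Walk u s) : ∀ q : T.Walk t u, ∃ c ∈ p.support, c ∈ q.support ∧ c ∈ r.support := by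
  classical
  induction r with
  | nil => exact fun q => ⟨_, p.end_mem_support, q.end_mem_support, Walk.start_mem_support _⟩
  | @cons u u' s h r ih =>
    intro q
    by_cases hu : u ∈ p.support
    · exact ⟨u, hu, q.end_mem_support, Walk.start_mem_support _⟩
    obtain ⟨c, h1, h2, h3⟩ := ih p (q.concat h)
    by_cases hc : c ∈ q.support
    · exact ⟨c, h1, hc, by simp [h3]⟩
    obtain rfl : c = u' := by simpa [hc] using h2
    have hb := isBridge_iff_forall_walk_mem_edges.1 (isAcyclic_iff_forall_adj_isBridge.1 hT h)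
      (q.reverse.append (p.takeUntil c h1))
    rw [Walk.edges_append, List.mem_append] at hb
    rcases hb with hb | hb
    · exact absurd (by simpa using Walk.snd_mem_support_of_mem_edges _ hb) hc
    · exact absurd (p.support_takeUntil_subset_support h1
        (Walk.fst_mem_support_of_mem_edges _ hb)) hu

theorem split_ManA {V : Type} {G : SimpleGraph V} {x y a : V} (p : G.Walk x y)
    (h : a ∈ p.support) : G.dist x a + G.dist a y ≤ p.length := by
  classical
  have e := congrArg Walk.length (p.take_spec h)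
  rw [Walk.length_append] at e
  have h1 := dist_le (p.takeUntil a h)
  have h2 := dist_le (p.dropUntil a h)
  omega

theorem lift_ManA {V W : Type} {G : SimpleGraph V} {T : SimpleGraph W} (hT : T.Connected)
    {f : V → W} {L : ℕ} (hf : ∀ u v, G.Adj u v → T.dist (f u) (f v) ≤ L) {x y : V}
    (q : G.Walk x y) : ∃ p : T.Walk (f x) (f y), ∀ c ∈ p.support, ∃ z ∈ q.support,
      T.dist (f z) c ≤ L := by
  induction q with
  | nil => exact ⟨.nil, fun c hc => ⟨_, Walk.start_mem_support _, by simp_all⟩⟩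
  | @cons u v w h q ih =>
    obtain ⟨p, hp⟩ := ih
    obtain ⟨p', hp'⟩ := hT.exists_walk_length_eq_dist (f u) (f v)
    refine ⟨p'.append p, fun c hc => ?_⟩
    rcases (Walk.mem_support_append_iff _ _).1 hc with hc | hc
    · have h1 := split_ManA p' hc
      have h2 := hf u v h
      exact ⟨u, Walk.start_mem_support _, by omega⟩
    · obtain ⟨z, hz, h1⟩ := hp c hc
      exact ⟨z, by simp [hz], h1⟩

theorem manA : ManA := by
  rintro V G hG ⟨W, T, f, L, hT, hf, -⟩
  have h1 : ∀ u v, G.Adj u v → T.dist (f u) (f v) ≤ 2 * L := fun u v h => by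
    have := (hf u v).1
    rw [dist_eq_one_iff_adj.2 h] at this
    omega
  have h2 : ∀ u v c, T.dist (f u) c ≤ 2 * L → T.dist (f v) c ≤ 2 * L →
      G.dist u v ≤ L * (4 * L) + L := fun u v c a b => by
    have h3 := hT.connected.dist_triangle (u := f u) (v := c) (w := f v)
    rw [dist_comm (u := c)] at h3
    exact (hf u v).2.trans (Nat.add_le_add_right (Nat.mul_le_mul_left _ (by omega)) _)
  refine ⟨2 * (L * (4 * L) + L), fun x m y h q => ?_⟩
  obtain ⟨p₁, e₁⟩ := hG.exists_walk_length_eq_dist x m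
  obtain ⟨p₂, e₂⟩ := hG.exists_walk_length_eq_dist m y
  obtain ⟨P₁, hP₁⟩ := lift_ManA hT.connected h1 p₁
  obtain ⟨P₂, hP₂⟩ := lift_ManA hT.connected h1 p₂
  obtain ⟨Q, hQ⟩ := lift_ManA hT.connected h1 q
  obtain ⟨c, c1, c2, c3⟩ := helly_ManA hT.isAcyclic Q P₂ P₁
  obtain ⟨z, hz, z1⟩ := hQ c c1
  obtain ⟨a, ha, a1⟩ := hP₁ c c2
  obtain ⟨b, hb, b1⟩ := hP₂ c c3
  refine ⟨z, hz, ?_⟩
  have s1 := split_ManA p₁ ha
  have s2 := split_ManA p₂ hb
  have s3 := h2 a b c a1 b1
  have s4 := h2 a z c a1 z1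
  have t1 := hG.dist_triangle (u := x) (v := a) (w := y)
  have t2 := hG.dist_triangle (u := a) (v := b) (w := y)
  have t3 := hG.dist_triangle (u := m) (v := a) (w := z)
  rw [dist_comm (u := m) (v := a)] at t3
  omega

end Pool.Agent.MP_295da9_pr.U

end

section

/-! Bottlenecks give a quasi-tree: the layering tree. -/

open MeasureTheory ProbabilityTheory Filter Topology

namespace Pool.Agent.MP_295da9_pr.U

lemma acyc_ManB {W : Type} (T : SimpleGraph W) (l : W → ℕ) (h1 : ∀ a b, T.Adj a b → l a ≠ l b)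
    (h2 : ∀ a b b', T.Adj a b → T.Adj a b' → l b < l a → l b' < l a → b = b') : T.IsAcyclic := by
  classical
  intro v c hc
  obtain ⟨x, hx, hmax⟩ := c.support.toFinset.exists_max_image l
    ⟨v, List.mem_toFinset.2 c.start_mem_support⟩
  rw [List.mem_toFinset] at hx
  have hc' := hc.rotate hx
  have hn := hc'.not_nil
  have ha := (c.rotate x hx).adj_snd hn
  have hb := ((c.rotate x hx).adj_penultimate hn).symm
  have hm : ∀ i, l ((c.rotate x hx).getVert i) ≤ l x := fun i =>
    hmax _ (List.mem_toFinset.2 ((c.mem_support_rotate_iff x hx).1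
      ((c.rotate x hx).getVert_mem_support i)))
  exact hc'.snd_ne_penultimate (h2 x _ _ ha hb (lt_of_le_of_ne (hm _) (h1 _ _ ha).symm)
    (lt_of_le_of_ne (hm _) (h1 _ _ hb).symm))

variable {V : Type} {G : SimpleGraph V}

lemma geo_ManB {x y z : V} (p : G.Walk x y) (hp : p.length = G.dist x y) (hz : z ∈ p.support) :
    G.dist x z + G.dist z y ≤ G.dist x y := by
  obtain ⟨q, r, rfl⟩ := SimpleGraph.Walk.mem_support_iff_exists_append.1 hz
  rw [SimpleGraph.Walk.length_append] at hp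
  have := SimpleGraph.dist_le q
  have := SimpleGraph.dist_le r
  omega

lemma diam_ManB (hG : G.Connected) {k : ℕ} (hB : Bot G k) {o v w : V}
    (h : G.dist o v = G.dist o w) (hR : R G {u | G.dist o v ≤ G.dist o u} v w) :
    G.dist v w ≤ 6 * k + 1 := by
  by_contra hlt
  obtain ⟨p, hp⟩ := hG.exists_walk_length_eq_dist v w
  obtain ⟨m, hm1, hm2⟩ : ∃ m, G.dist v m ≤ 3 * k + 1 ∧ G.dist m w ≤ G.dist v w - (3 * k + 1) := by
    refine ⟨p.getVert (3 * k + 1), ?_, ?_⟩
    · have := SimpleGraph.dist_le (p.take (3 * k + 1))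
      rw [SimpleGraph.Walk.take_length] at this
      exact this.trans inf_le_left
    · have := SimpleGraph.dist_le (p.drop (3 * k + 1))
      rwa [SimpleGraph.Walk.drop_length, hp] at this
  have t1 : G.dist v w ≤ G.dist v m + G.dist m w := hG.dist_triangle
  have hm : G.dist v m + G.dist m w = G.dist v w := by omega
  obtain ⟨q, hq⟩ := hR
  obtain ⟨z, hz, hz'⟩ := hB v m w hm q
  have h1 : G.dist o v ≤ G.dist o z := hq z hz
  have t2 : G.dist o z ≤ G.dist o m + G.dist m z := hG.dist_triangle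
  obtain ⟨p1, hp1⟩ := hG.exists_walk_length_eq_dist o v
  obtain ⟨p2, hp2⟩ := hG.exists_walk_length_eq_dist o w
  obtain ⟨y, hy, hy'⟩ := hB v m w hm (p1.reverse.append p2)
  have t3 : G.dist o m ≤ G.dist o y + G.dist y m := hG.dist_triangle
  have c1 : G.dist y m = G.dist m y := SimpleGraph.dist_comm
  have c2 : G.dist v m = G.dist m v := SimpleGraph.dist_comm
  rcases (SimpleGraph.Walk.mem_support_append_iff _ _).1 hy with hy | hy
  · have := geo_ManB p1 hp1 (by simpa using hy)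
    have t4 : G.dist m v ≤ G.dist m y + G.dist y v := hG.dist_triangle
    omega
  · have := geo_ManB p2 hp2 hy
    have t4 : G.dist m w ≤ G.dist m y + G.dist y w := hG.dist_triangle
    omega

/-- the pieces of the spheres about `o` -/
def st_ManB (G : SimpleGraph V) (o : V) : Setoid V where
  r v w := G.dist o v = G.dist o w ∧ R G {u | G.dist o v ≤ G.dist o u} v w
  iseqv := ⟨fun v => ⟨rfl, R.refl (le_refl (G.dist o v))⟩, fun h => ⟨h.1.symm, h.1 ▸ h.2.symm⟩,
    fun h h' => ⟨h.1.trans h'.1, h.2.trans (h.1 ▸ h'.2)⟩⟩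

/-- the layering graph -/
def tr_ManB (G : SimpleGraph V) (o : V) : SimpleGraph (Quotient (st_ManB G o)) where
  Adj a b := ∃ u v, Quotient.mk _ u = a ∧ Quotient.mk _ v = b ∧ G.Adj u v ∧
    G.dist o u ≠ G.dist o v
  symm := ⟨fun _ _ ⟨u, v, h1, h2, h3, h4⟩ => ⟨v, u, h2, h1, h3.symm, h4.symm⟩⟩
  loopless := ⟨fun _ ⟨_, _, h1, h2, _, h4⟩ => h4 (Quotient.exact (h1.trans h2.symm)).1⟩

lemma up_ManB (o : V) {u v : V} (p : G.Walk u v) :
    ∃ q : (tr_ManB G o).Walk (Quotient.mk _ u) (Quotient.mk _ v), q.length ≤ p.length := by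
  induction p with
  | nil => exact ⟨.nil, le_rfl⟩
  | @cons a b c h p ih =>
    obtain ⟨q, hq⟩ := ih
    by_cases e : G.dist o a = G.dist o b
    · have e' : Quotient.mk (st_ManB G o) b = Quotient.mk _ a :=
        (Quotient.sound (s := st_ManB G o) ⟨e, R.head h (le_refl (G.dist o a)) (R.refl e.le)⟩).symm
      exact ⟨q.copy e' rfl, by simp; omega⟩
    · exact ⟨.cons ⟨a, b, rfl, rfl, h, e⟩ q, by simpa using hq⟩

lemma down_ManB (hG : G.Connected) {k : ℕ} (hB : Bot G k) (o : V)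
    {a b : Quotient (st_ManB G o)} (q : (tr_ManB G o).Walk a b) : ∀ u v, Quotient.mk _ u = a →
      Quotient.mk _ v = b → G.dist u v ≤ (6 * k + 2) * q.length + (6 * k + 1) := by
  induction q with
  | nil =>
    intro u v h1 h2
    have h := Quotient.exact (h1.trans h2.symm)
    simpa using diam_ManB hG hB h.1 h.2
  | cons h q ih =>
    intro u v h1 h2
    obtain ⟨u', v', e1, e2, hadj, -⟩ := h
    have h3 := Quotient.exact (h1.trans e1.symm)
    have h4 := diam_ManB hG hB h3.1 h3.2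
    have h5 := ih v' v e2 h2
    have h6 := SimpleGraph.dist_eq_one_iff_adj.2 hadj
    have t1 : G.dist u v ≤ G.dist u u' + G.dist u' v := hG.dist_triangle
    have t2 : G.dist u' v ≤ G.dist u' v' + G.dist v' v := hG.dist_triangle
    rw [SimpleGraph.Walk.length_cons, Nat.mul_succ]
    omega

theorem manB : ManB := by
  intro V G k hG hB
  obtain ⟨o⟩ := hG.nonempty
  have hconn : (tr_ManB G o).Connected := by
    have : Nonempty (Quotient (st_ManB G o)) := ⟨Quotient.mk _ o⟩
    refine ⟨fun a b => ?_⟩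
    obtain ⟨u, rfl⟩ := Quotient.exists_rep a
    obtain ⟨v, rfl⟩ := Quotient.exists_rep b
    obtain ⟨p⟩ := hG u v
    exact ⟨(up_ManB o p).choose⟩
  refine ⟨_, tr_ManB G o, Quotient.mk _, 6 * k + 2, ⟨hconn, ?_⟩, fun u v => ⟨?_, ?_⟩, fun w => ?_⟩
  · refine acyc_ManB _ (Quotient.lift (G.dist o) fun _ _ h => h.1) ?_ ?_
    · rintro _ _ ⟨u, v, rfl, rfl, -, h⟩
      exact h
    · rintro _ _ _ ⟨u, v, rfl, rfl, h1, -⟩ ⟨u', v', e, rfl, h2, -⟩ h3 h4
      change G.dist o v < G.dist o u at h3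
      change G.dist o v' < G.dist o u at h4
      obtain ⟨e1, e2⟩ := Quotient.exact e.symm
      have d1 := SimpleGraph.dist_eq_one_iff_adj.2 h1.symm
      have d2 := SimpleGraph.dist_eq_one_iff_adj.2 h2.symm
      have t1 : G.dist o u ≤ G.dist o v + G.dist v u := hG.dist_triangle
      have t2 : G.dist o u' ≤ G.dist o v' + G.dist v' u' := hG.dist_triangle
      have e3 : G.dist o v = G.dist o v' := by omega
      exact Quotient.sound (s := st_ManB G o) ⟨e3, R.head h1.symm (le_refl (G.dist o v))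
        ((e2.mono fun x hx => h3.le.trans hx).tail h2 e3.le)⟩
  · obtain ⟨p, hp⟩ := hG.exists_walk_length_eq_dist u v
    obtain ⟨q, hq⟩ := up_ManB o p
    have h1 := (SimpleGraph.dist_le q).trans (hq.trans hp.le)
    have h2 : G.dist u v ≤ (6 * k + 2) * G.dist u v := Nat.le_mul_of_pos_left _ (by omega)
    omega
  · obtain ⟨q, hq⟩ := hconn.exists_walk_length_eq_dist (Quotient.mk _ u) (Quotient.mk _ v)
    have := down_ManB hG hB o q u v rfl rfl
    rw [hq] at this
    omega
  · obtain ⟨v, rfl⟩ := Quotient.exists_rep w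
    exact ⟨v, by simp⟩

end Pool.Agent.MP_295da9_pr.U

end

section

/-! Events on disjoint finite sets are independent. -/

open MeasureTheory ProbabilityTheory Filter Topology

namespace Pool.Agent.MP_295da9_pr.U

theorem pre_Ind {V : Type} {D : Finset V} {E : Set (Set V)} (h : Dep D E) :
    ∃ F : Set (D → Prop), E = (fun (ω : Set V) (i : D) => (i : V) ∈ ω) ⁻¹' F := by
  refine ⟨{g | {x | ∃ h : x ∈ D, g ⟨x, h⟩} ∈ E}, Set.ext fun ω => ⟨h _ _ ?_, h _ _ ?_⟩⟩ <;>
    intro x hx <;> simp [hx]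

theorem ind : IndSt := by
  intro V p D D' E E' h
  obtain ⟨F, rfl⟩ := pre_Ind h
  refine ⟨measurable_pi_lambda _ (fun i => by fun_prop) .of_discrete, fun h' hD => ?_⟩
  obtain ⟨F', rfl⟩ := pre_Ind h'
  simp only [Measure.real, setBernoulli_apply']
  rw [← ENNReal.toReal_mul]
  have k := ((iIndepFun_infinitePi (Ω := fun _ : V => Prop) (X := fun _ ω => ω)
    (P := fun i => unitInterval.toNNReal p • Measure.dirac (i ∈ Set.univ) +
      unitInterval.toNNReal (unitInterval.symm p) • Measure.dirac False)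
    fun _ => measurable_id').indepFun_finset D D' hD
      measurable_pi_apply).measure_inter_preimage_eq_mul F F' .of_discrete .of_discrete
  exact congrArg _ k

end Pool.Agent.MP_295da9_pr.U

end

section

/-! Uniform decay of arm probabilities on graphs with bottlenecks and subexponential growth. -/

open MeasureTheory ProbabilityTheory Filter Topology
open scoped ENNReal

namespace Pool.Agent.MP_295da9_pr.U

variable {V : Type}

theorem closed_Dec (p : unitInterval) (F : Finset V) :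
    setBernoulli Set.univ p {ω : Set V | ∀ x ∈ F, x ∉ ω} =
      (unitInterval.toNNReal (unitInterval.symm p) : ℝ≥0∞) ^ F.card := by
  rw [setBernoulli_apply']
  have : (fun p : V → Prop => {i | p i}) ⁻¹' {ω : Set V | ∀ x ∈ F, x ∉ ω}
      = Set.pi F (fun _ => {False}) := by
    ext f; simp
  rw [this, Measure.infinitePi_pi _ (fun _ _ => MeasurableSet.of_discrete)]
  simp

theorem meas_Dec (F : Finset V) : MeasurableSet {ω : Set V | ∀ x ∈ F, x ∉ ω} := by
  have : {ω : Set V | ∀ x ∈ F, x ∉ ω} = ⋂ x ∈ F, {ω : Set V | x ∈ ω}ᶜ := by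
    ext; simp
  rw [this]
  exact Finset.measurableSet_biInter _ fun x _ => (measurableSet_mem x).compl

theorem none_Dec (p : unitInterval) {n r : ℕ} (T : Fin n → Finset V)
    (hT : Pairwise fun a b => Disjoint (T a) (T b)) (hc : ∀ k, (T k).card ≤ r) :
    (setBernoulli Set.univ p).real {ω : Set V | ∀ k, ¬ ∀ x ∈ T k, x ∉ ω} ≤
      (1 - (1 - p : ℝ) ^ r) ^ n := by
  classical
  set μ := setBernoulli (Set.univ : Set V) p with hμ
  let C : Fin n → Set (Set V) := fun k => {ω | ∀ x ∈ T k, x ∉ ω}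
  have hC : ∀ k, MeasurableSet (C k) := fun k => meas_Dec _
  have hind : iIndepSet C μ := by
    rw [iIndepSet_iff_meas_biInter hC]
    intro s
    have h1 : ⋂ k ∈ s, C k = {ω | ∀ x ∈ s.biUnion T, x ∉ ω} := by
      ext ω
      simp only [C, Set.mem_iInter, Set.mem_ofPred_eq, Finset.mem_biUnion]
      exact ⟨fun h x ⟨k, hk, hx⟩ => h k hk x hx, fun h k hk x hx => h x ⟨k, hk, hx⟩⟩
    rw [h1, closed_Dec, Finset.card_biUnion (fun a _ b _ hab => hT hab),
      ← Finset.prod_pow_eq_pow_sum]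
    exact Finset.prod_congr rfl fun k _ => (closed_Dec p _).symm
  have h1 := ((iIndepSet_iff_iIndep _ _).1 hind).meas_iInter (s := fun k => (C k)ᶜ)
    fun k => (MeasurableSpace.measurableSet_generateFrom (Set.mem_singleton _)).compl
  have h2 : {ω : Set V | ∀ k, ¬ ∀ x ∈ T k, x ∉ ω} = ⋂ k, (C k)ᶜ := by
    ext ω; simp only [C, Set.mem_iInter, Set.mem_compl_iff, Set.mem_ofPred_eq]
  have q0 : (0 : ℝ) ≤ 1 - p := by linarith [p.2.2]
  have q1 : (1 - p : ℝ) ≤ 1 := by linarith [p.2.1]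
  have h3 : ∀ k, μ.real (C k)ᶜ ≤ 1 - (1 - p : ℝ) ^ r := by
    intro k
    rw [probReal_compl_eq_one_sub (hC k), measureReal_def, closed_Dec]
    have := pow_le_pow_of_le_one q0 q1 (hc k)
    simp only [ENNReal.toReal_pow, ENNReal.coe_toReal, unitInterval.coe_toNNReal,
      unitInterval.coe_symm_eq]
    linarith
  rw [h2, measureReal_def, h1, ENNReal.toReal_prod]
  refine (Finset.prod_le_prod (fun k _ => ENNReal.toReal_nonneg) fun k _ => h3 k).trans ?_
  simp

theorem geo_Dec {G : SimpleGraph V} (hG : G.Connected) (v w : V) : ∃ m : ℕ → V,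
    ∀ i ≤ G.dist v w, G.dist v (m i) = i ∧ G.dist v (m i) + G.dist (m i) w = G.dist v w := by
  obtain ⟨g, hg⟩ := hG.exists_walk_length_eq_dist v w
  refine ⟨g.getVert, fun i hi => ?_⟩
  have h1 := SimpleGraph.dist_le (g.take i)
  have h2 := SimpleGraph.dist_le (g.drop i)
  have h3 := hG.dist_triangle (u := v) (v := g.getVert i) (w := w)
  rw [SimpleGraph.Walk.take_length] at h1
  rw [SimpleGraph.Walk.drop_length] at h2
  omega

theorem pair_Dec {G : SimpleGraph V} {k M : ℕ} (p : unitInterval) (hG : G.Connected)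
    (hb : ∀ v, {w | G.dist v w ≤ k}.Finite ∧ {w | G.dist v w ≤ k}.ncard ≤ M) (hB : Bot G k)
    (N : ℕ) (v w : V) (h : G.dist v w = (2 * k + 1) * N) :
    (setBernoulli Set.univ p).real {ω : Set V | R G ω v w} ≤ (1 - (1 - p : ℝ) ^ M) ^ N := by
  obtain ⟨m, hm⟩ := geo_Dec hG v w
  have hj : ∀ j : Fin N, (2 * k + 1) * j ≤ G.dist v w := fun j =>
    h ▸ Nat.mul_le_mul_left _ j.2.le
  refine le_trans (measureReal_mono ?_ (measure_ne_top _ _))
    (none_Dec p (fun j : Fin N => (hb (m ((2 * k + 1) * j))).1.toFinset) ?_ fun j => ?_)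
  · rintro ω ⟨q, hq⟩ j hc
    obtain ⟨z, hz, hd⟩ := hB v _ w (hm _ (hj j)).2 q
    exact hc z ((Set.Finite.mem_toFinset _).2 hd) (hq z hz)
  · have key : ∀ a b : Fin N, a < b → Disjoint (hb (m ((2 * k + 1) * a))).1.toFinset
        (hb (m ((2 * k + 1) * b))).1.toFinset := by
      intro a b hab
      rw [Finset.disjoint_left]
      intro x hx hx'
      rw [Set.Finite.mem_toFinset, Set.mem_ofPred_eq] at hx hx'
      have t1 := hG.dist_triangle (u := v) (v := m ((2 * k + 1) * a)) (w := x)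
      have t2 := hG.dist_triangle (u := v) (v := x) (w := m ((2 * k + 1) * b))
      rw [(hm _ (hj a)).1] at t1
      rw [(hm _ (hj b)).1, SimpleGraph.dist_comm (u := x)] at t2
      have t3 : (2 * k + 1) * (a + 1) ≤ (2 * k + 1) * b := Nat.mul_le_mul_left _ hab
      rw [mul_add_one] at t3
      omega
    intro a b hab
    rcases lt_or_gt_of_ne hab with h | h
    · exact key a b h
    · exact (key b a h).symm
  · rw [← Set.ncard_eq_toFinset_card _ (hb _).1]
    exact (hb _).2

theorem first_Dec {G : SimpleGraph V} (hG : G.Connected) {ω : Set V} (v : V) (n : ℕ) {a w : V}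
    (q : G.Walk a w) (hq : ∀ x ∈ q.support, x ∈ ω) (ha : G.dist v a ≤ n) (hw : n ≤ G.dist v w) :
    ∃ u, G.dist v u = n ∧ R G ω a u := by
  induction q with
  | nil => exact ⟨_, le_antisymm ha hw, R.refl (hq _ (by simp))⟩
  | @cons a b c h q ih =>
    have a0 : a ∈ ω := hq _ (by simp)
    rcases ha.eq_or_lt with e | e
    · exact ⟨a, e, R.refl a0⟩
    · have t := hG.dist_triangle (u := v) (v := a) (w := b)
      rw [SimpleGraph.dist_eq_one_iff_adj.2 h] at t
      obtain ⟨u, h1, h2⟩ := ih (fun x hx => hq x (by simp [hx])) (by omega) hw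
      exact ⟨u, h1, R.head h a0 h2⟩

theorem dec (hB : BallSt) (hI : IndSt) : DecSt := by
  intro V G D k p hG hD hk hS hp ε hε
  classical
  have p1 : (p : ℝ) < 1 := hp
  have q0 : (0 : ℝ) < 1 - p := by linarith
  have q1 : (1 - p : ℝ) ≤ 1 := by linarith [p.2.1]
  obtain ⟨ρ, hρ⟩ : ∃ ρ : ℝ, ρ = 1 - (1 - p : ℝ) ^ (D + 1) ^ k := ⟨_, rfl⟩
  have r0 : 0 ≤ ρ := by rw [hρ]; linarith [pow_le_one₀ (n := (D + 1) ^ k) q0.le q1]
  have r1 : ρ < 1 := by rw [hρ]; linarith [pow_pos q0 ((D + 1) ^ k)]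
  have hc : ContinuousAt (fun l : ℝ => l ^ (2 * k + 1) * ρ) 1 := by fun_prop
  have ev : ∀ᶠ l in 𝓝 (1 : ℝ), l ^ (2 * k + 1) * ρ < 1 :=
    hc.eventually_lt continuousAt_const (by simpa using r1)
  obtain ⟨l, l1, l2⟩ := ((ev.filter_mono (nhdsWithin_le_nhds (s := Set.Ioi 1))).and
    self_mem_nhdsWithin).exists
  have l3 : (1 : ℝ) < l := l2
  obtain ⟨C, hC⟩ := hS l l3
  have ht := (tendsto_pow_atTop_nhds_zero_of_lt_one (by positivity) l1).const_mul C
  rw [mul_zero] at ht
  obtain ⟨N, hN⟩ := (ht.eventually (gt_mem_nhds hε)).exists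
  refine ⟨(2 * k + 1) * N, fun v => ?_⟩
  have hf := (hB V G D hG hD v ((2 * k + 1) * N)).1
  have hs : Arm G v ((2 * k + 1) * N) ⊆ ⋃ w ∈ hf.toFinset.filter
      (fun w => G.dist v w = (2 * k + 1) * N), {ω : Set V | R G ω v w} := by
    rintro ω ⟨w, hw, q, hq⟩
    obtain ⟨u, h1, h2⟩ := first_Dec hG v _ q hq (by simp) hw
    simp only [Set.mem_iUnion]
    exact ⟨u, Finset.mem_filter.2 ⟨(Set.Finite.mem_toFinset _).2 h1.le, h1⟩, h2⟩
  refine (measureReal_mono hs (measure_ne_top _ _)).trans ((measureReal_biUnion_finset_le _ _).trans ?_)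
  refine (Finset.sum_le_card_nsmul _ _ (ρ ^ N) fun w hw => ?_).trans ?_
  · rw [hρ]
    exact pair_Dec p hG (fun u => hB V G D hG hD u k) hk N v w (Finset.mem_filter.1 hw).2
  · have c1 : ((hf.toFinset.filter (fun w => G.dist v w = (2 * k + 1) * N)).card : ℝ) ≤
        C * l ^ ((2 * k + 1) * N) := by
      refine le_trans ?_ (hC v _)
      rw [Set.ncard_eq_toFinset_card _ hf]
      exact_mod_cast Finset.card_filter_le _ _
    rw [nsmul_eq_mul]
    refine (mul_le_mul_of_nonneg_right c1 (by positivity)).trans (le_trans (le_of_eq ?_) hN.le)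
    rw [mul_pow, pow_mul, mul_assoc]

end Pool.Agent.MP_295da9_pr.U

end
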