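import Pool.Agent.Mg.F295da9a.G6a7d97

set_option linter.all false

/-! Local limits. -/

open MeasureTheory ProbabilityTheory Filter Topology

namespace Pool.Agent.MP_295da9_pr.U

variable {V W : Type}

/-- the ball of radius `n` around `o` in `H` is carried to a ball of `G` -/
def Loc (H : SimpleGraph W) (o : W) (G : SimpleGraph V) (n : ℕ) (f : W → V) : Prop :=
  Set.BijOn f {w | H.dist o w ≤ n} {w | G.dist (f o) w ≤ n} ∧
    ∀ x y, H.dist o x ≤ n → H.dist o y ≤ n → (H.Adj x y ↔ G.Adj (f x) (f y))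

theorem push_Lim {A : Type} (p : unitInterval) (ι : A → V) (hι : Function.Injective ι)
    (S : Set (Set A)) (hS : MeasurableSet S) :
    setBernoulli Set.univ p {ω : Set V | ι ⁻¹' ω ∈ S} = setBernoulli Set.univ p S := by
  rw [setBernoulli_apply', setBernoulli_apply']
  simp only [Set.mem_univ]
  set μ : Measure Prop := unitInterval.toNNReal p • Measure.dirac True +
    unitInterval.toNNReal (unitInterval.symm p) • Measure.dirac False with hμ
  have h1 : iIndepFun (fun (i : V) (ω : V → Prop) => ω i) (Measure.infinitePi fun _ : V => μ) :=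
    iIndepFun_infinitePi (X := fun _ => id) fun _ => measurable_id
  have h2 := (h1.precomp hι).map_fun_eq_infinitePi_map fun a => measurable_pi_apply (ι a)
  simp only [Measure.infinitePi_map_eval] at h2
  rw [← h2, Measure.map_apply (measurable_pi_lambda _ fun a => measurable_pi_apply (ι a))
    (MeasurableEquiv.setOfPred.measurable hS)]
  rfl

theorem arm_Lim {G : SimpleGraph V} (hc : G.Connected) {v : V} {n : ℕ} {ω : Set V}
    (h : ω ∈ Arm G v n) : ∃ w, G.dist v w = n ∧ R G (ω ∩ {x | G.dist v x ≤ n}) v w := by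
  obtain ⟨w, hw, q, hq⟩ := h
  suffices H : ∀ a (q : G.Walk a w), (∀ x ∈ q.support, x ∈ ω) → G.dist v a ≤ n →
      ∃ w, G.dist v w = n ∧ R G (ω ∩ {x | G.dist v x ≤ n}) a w from H v q hq (by simp)
  clear q hq
  intro a q
  induction q with
  | nil => exact fun hq ha => ⟨_, le_antisymm ha hw, R.refl ⟨hq _ (by simp), ha⟩⟩
  | @cons a b _ hab q ih =>
    intro hq ha
    by_cases e : G.dist v a = n
    · exact ⟨a, e, R.refl ⟨hq _ (by simp), ha⟩⟩
    · have h1 := hc.dist_triangle (u := v) (v := a) (w := b)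
      have h2 := SimpleGraph.dist_eq_one_iff_adj.2 hab
      obtain ⟨w', h3, h4⟩ := ih hw (fun x hx => hq x (by simp [hx])) (by omega)
      exact ⟨w', h3, R.head hab ⟨hq _ (by simp), ha⟩ h4⟩

variable {G : SimpleGraph V} {H : SimpleGraph W} {o : W} {n : ℕ} {f : W → V}

theorem Loc.walk (h : Loc H o G n f) {a b : W} (q : H.Walk a b)
    (hq : ∀ x ∈ q.support, H.dist o x ≤ n) : ∃ q' : G.Walk (f a) (f b), q'.length = q.length ∧
      ∀ y ∈ q'.support, ∃ x ∈ q.support, f x = y := by
  induction q with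
  | nil => exact ⟨.nil, rfl, by simp⟩
  | @cons a b _ hab q ih =>
    obtain ⟨q', h1, h2⟩ := ih fun x hx => hq x (by simp [hx])
    refine ⟨.cons ((h.2 a b (hq a (by simp)) (hq b (by simp))).1 hab) q', by simp [h1], ?_⟩
    intro y hy
    rw [SimpleGraph.Walk.support_cons, List.mem_cons] at hy
    rcases hy with rfl | hy
    · exact ⟨a, by simp, rfl⟩
    · obtain ⟨x, hx, e⟩ := h2 y hy
      exact ⟨x, by simp [hx], e⟩

theorem Loc.dist_le (h : Loc H o G n f) (hH : H.Connected) {x : W} (hx : H.dist o x ≤ n) :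
    G.dist (f o) (f x) ≤ H.dist o x := by
  obtain ⟨q, hq⟩ := hH.exists_walk_length_eq_dist o x
  obtain ⟨q', h1, -⟩ := h.walk q fun z hz => by
    have := geod_Asm hH q hq hz
    omega
  exact (SimpleGraph.dist_le q').trans (h1.trans hq).le

theorem Loc.symm (h : Loc H o G n f) :
    ∃ g : V → W, Loc G (f o) H n g ∧ ∀ x, H.dist o x ≤ n → g (f x) = x := by
  have : Nonempty W := ⟨o⟩
  have h1 := h.1.invOn_invFunOn
  have h2 : Function.invFunOn f {w | H.dist o w ≤ n} (f o) = o := h1.1 (by simp)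
  have h3 := (h.1.symm h1.symm)
  refine ⟨Function.invFunOn f {w | H.dist o w ≤ n}, ⟨by rw [h2]; exact h3, fun x y hx hy => ?_⟩,
    fun x hx => h1.1 hx⟩
  rw [h.2 _ _ (h3.mapsTo hx) (h3.mapsTo hy), h1.2 hx, h1.2 hy]

theorem Loc.le (h : Loc H o G n f) (hH : H.Connected) (hG : G.Connected)
    (hf : {w | H.dist o w ≤ n}.Finite) (p : unitInterval) :
    setBernoulli Set.univ p (Arm H o n) ≤ setBernoulli Set.univ p (Arm G (f o) n) := by
  have : Finite {w | H.dist o w ≤ n} := hf
  let S : Set (Set {w | H.dist o w ≤ n}) := {s | Subtype.val '' s ∈ Arm H o n}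
  have hS : MeasurableSet S := MeasurableSet.of_discrete
  obtain ⟨g, hg, hgf⟩ := h.symm
  calc setBernoulli Set.univ p (Arm H o n)
      ≤ setBernoulli Set.univ p {ω : Set W | Subtype.val ⁻¹' ω ∈ S} := by
        refine measure_mono fun ω hω => ?_
        obtain ⟨w, h1, h2⟩ := arm_Lim hH hω
        exact ⟨w, h1.ge, h2.mono fun x hx => ⟨⟨x, hx.2⟩, hx.1, rfl⟩⟩
    _ = setBernoulli Set.univ p {ω : Set V |
          (fun x : {w | H.dist o w ≤ n} => f x.1) ⁻¹' ω ∈ S} := by
        rw [push_Lim p _ Subtype.val_injective S hS,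
          push_Lim p _ (fun a b e => Subtype.ext (h.1.injOn a.2 b.2 e)) S hS]
    _ ≤ _ := by
        refine measure_mono fun ω hω => ?_
        obtain ⟨w, h1, q, hq⟩ := arm_Lim hH (ω := Subtype.val '' _) hω
        obtain ⟨q', -, h2⟩ := h.walk q fun x hx => (hq x hx).2
        refine ⟨f w, ?_, q', fun y hy => ?_⟩
        · have h3 := hg.dist_le hG (h.1.mapsTo h1.le)
          rw [hgf o (by simp), hgf w h1.le] at h3
          omega
        · obtain ⟨x, hx, rfl⟩ := h2 y hy
          obtain ⟨⟨z, hz, rfl⟩, -⟩ := hq x hx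
          exact hz

theorem arm_meas_Lim (hH : H.Connected) (hf : {w | H.dist o w ≤ n}.Finite) :
    MeasurableSet (Arm H o n) := by
  have : Finite {w | H.dist o w ≤ n} := hf
  let S : Set (Set {w | H.dist o w ≤ n}) := {s | Subtype.val '' s ∈ Arm H o n}
  have hS : MeasurableSet S := MeasurableSet.of_discrete
  have e : Arm H o n = (fun ω : Set W => (Subtype.val ⁻¹' ω : Set {w | H.dist o w ≤ n})) ⁻¹' S := by
    ext ω
    constructor
    · intro hω
      obtain ⟨w, h1, h2⟩ := arm_Lim hH hω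
      exact ⟨w, h1.ge, h2.mono fun x hx => ⟨⟨x, hx.2⟩, hx.1, rfl⟩⟩
    · rintro ⟨w, h1, h2⟩
      exact ⟨w, h1, h2.mono (Set.image_preimage_subset _ _)⟩
  rw [e]
  exact (measurable_set_iff.2 fun a => measurable_set_mem a.1) hS

theorem enum_Lim {s : Set V} (hs : s.Finite) {M : ℕ} (hM : s.ncard ≤ M) {v : V} (hv : v ∈ s) :
    ∃ b : Fin M → V, Set.range b = s := by
  obtain ⟨m, g, hg, rfl⟩ := hs.fin_param
  rw [Set.ncard_range_of_injective hg, Nat.card_eq_fintype_card, Fintype.card_fin] at hM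
  refine ⟨fun i => if h : i.1 < m then g ⟨i.1, h⟩ else v, Set.Subset.antisymm ?_ ?_⟩
  · rintro _ ⟨i, rfl⟩
    dsimp only
    split_ifs
    · exact ⟨_, rfl⟩
    · exact hv
  · rintro _ ⟨i, rfl⟩
    exact ⟨⟨i.1, by omega⟩, by simp⟩

/-- every sequence of roots has a local limit along a subsequence -/
theorem exists_Lim {D : ℕ} (hc : G.Connected) (hd : Deg G D) (v : ℕ → V) :
    ∃ (W : Type) (H : SimpleGraph W) (o : W), H.Connected ∧
      ∀ n, ∃ k, n ≤ k ∧ ∃ f, Loc H o G n f ∧ f o = v k := by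
  classical
  let U : Ultrafilter ℕ := hyperfilter ℕ
  let Z : Type := {a : ℕ → V // ∃ n, ∀ k, G.dist (v k) (a k) ≤ n}
  let s : Setoid Z := ⟨fun a b => ∀ᶠ k in (U : Filter ℕ), a.1 k = b.1 k,
    fun _ => .of_forall fun _ => rfl, fun h => h.mono fun _ => .symm,
    fun h h' => (h.and h').mono fun _ e => e.1.trans e.2⟩
  let rep : Quotient s → ℕ → V := fun x => x.out.1
  have hrep : ∀ a : Z, ∀ᶠ k in (U : Filter ℕ), rep (Quotient.mk s a) k = a.1 k := fun a =>
    Quotient.mk_out (s := s) a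
  have heq : ∀ x y, (∀ᶠ k in (U : Filter ℕ), rep x k = rep y k) → x = y := fun x y h =>
    Quotient.out_equiv_out.1 h
  let H : SimpleGraph (Quotient s) :=
    { Adj := fun x y => ∀ᶠ k in (U : Filter ℕ), G.Adj (rep x k) (rep y k)
      symm := ⟨fun _ _ h => h.mono fun _ => .symm⟩
      loopless := ⟨fun _ h => let ⟨_, hk⟩ := h.exists; hk.ne rfl⟩ }
  let o : Quotient s := Quotient.mk s ⟨v, 0, by simp⟩
  have ho : ∀ᶠ k in (U : Filter ℕ), rep o k = v k := hrep _
  have k1 : ∀ n x, (∀ᶠ k in (U : Filter ℕ), G.dist (v k) (rep x k) ≤ n) →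
      ∃ q : H.Walk o x, q.length ≤ n := by
    intro n
    induction n with
    | zero =>
      intro x h
      obtain rfl : o = x := heq _ _ ((h.and ho).mono fun k hk =>
        hk.2.trans (hc.dist_eq_zero_iff.1 (Nat.le_zero.1 hk.1)))
      exact ⟨.nil, le_rfl⟩
    | succ n ih =>
      intro x h
      by_cases h1 : ∀ᶠ k in (U : Filter ℕ), G.dist (v k) (rep x k) ≤ n
      · obtain ⟨q, hq⟩ := ih x h1
        exact ⟨q, by omega⟩
      have h2 : ∀ k, ∃ b, G.dist (v k) b ≤ n ∧
          (G.dist (v k) (rep x k) = n + 1 → G.Adj b (rep x k)) := by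
        intro k
        by_cases e : G.dist (v k) (rep x k) = n + 1
        · obtain ⟨q, hq⟩ := hc.exists_walk_length_eq_dist (rep x k) (v k)
          rw [SimpleGraph.dist_comm, e] at hq
          generalize rep x k = y at q hq
          cases q with
          | nil => simp at hq
          | @cons _ u _ hadj q =>
            rw [SimpleGraph.Walk.length_cons] at hq
            have h3 := SimpleGraph.dist_le q
            rw [SimpleGraph.dist_comm] at h3
            exact ⟨u, by omega, fun _ => hadj.symm⟩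
        · exact ⟨v k, by simp, fun e' => absurd e' e⟩
      choose b hb hb' using h2
      obtain ⟨q, hq⟩ := ih (Quotient.mk s ⟨b, n, hb⟩) ((hrep _).mono fun k hk => hk ▸ hb k)
      refine ⟨q.concat (((hrep ⟨b, n, hb⟩).and (h.and (Ultrafilter.eventually_not.2 h1))).mono
        fun k hk => ?_), by rw [SimpleGraph.Walk.length_concat]; omega⟩
      rw [hk.1]
      exact hb' k (by omega)
  have k2 : ∀ x y (q : H.Walk x y),
      ∀ᶠ k in (U : Filter ℕ), G.dist (rep x k) (rep y k) ≤ q.length := by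
    intro x y q
    induction q with
    | nil => exact .of_forall fun _ => by simp
    | @cons a b c hab q ih =>
      refine (ih.and hab).mono fun k hk => ?_
      have h1 := hc.dist_triangle (u := rep a k) (v := rep b k) (w := rep c k)
      have h2 := SimpleGraph.dist_eq_one_iff_adj.2 hk.2
      rw [SimpleGraph.Walk.length_cons]
      omega
  have hH : H.Connected := by
    have : Nonempty (Quotient s) := ⟨o⟩
    have h : ∀ x, H.Reachable o x := fun x => by
      obtain ⟨n, hn⟩ := x.out.2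
      obtain ⟨q, -⟩ := k1 n x (.of_forall hn)
      exact ⟨q⟩
    exact ⟨fun x y => (h x).symm.trans (h y)⟩
  refine ⟨_, H, o, hH, fun n => ?_⟩
  have k3 : ∀ x, H.dist o x ≤ n → ∀ᶠ k in (U : Filter ℕ), G.dist (v k) (rep x k) ≤ n := by
    intro x hx
    obtain ⟨q, hq⟩ := hH.exists_walk_length_eq_dist o x
    exact ((k2 _ _ q).and ho).mono fun k hk => by rw [← hk.2]; omega
  choose b hb using fun k => enum_Lim (ball V G D hc hd (v k) n).1 (ball V G D hc hd (v k) n).2
    (v := v k) (by simp)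
  have hb' : ∀ i k, G.dist (v k) (b k i) ≤ n := fun i k =>
    show b k i ∈ {w | G.dist (v k) w ≤ n} from hb k ▸ ⟨i, rfl⟩
  let β : Fin ((D + 1) ^ n) → Quotient s := fun i => Quotient.mk s ⟨fun k => b k i, n, hb' i⟩
  have hβ : ∀ i, ∀ᶠ k in (U : Filter ℕ), rep (β i) k = b k i := fun i => hrep _
  have hβ' : ∀ i, H.dist o (β i) ≤ n := fun i => by
    obtain ⟨q, hq⟩ := k1 n (β i) ((hβ i).mono fun k hk => hk ▸ hb' i k)
    exact (SimpleGraph.dist_le q).trans hq
  have hfin : {x | H.dist o x ≤ n}.Finite := by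
    refine (Set.finite_range β).subset fun x hx => ?_
    have h1 : ∀ᶠ k in (U : Filter ℕ), ∃ i, b k i = rep x k := (k3 x hx).mono fun k hk =>
      show rep x k ∈ Set.range (b k) from hb k ▸ hk
    obtain ⟨i, hi⟩ := Ultrafilter.eventually_exists_iff.1 h1
    exact ⟨i, heq _ _ (((hβ i).and hi).mono fun k hk => hk.1.trans hk.2)⟩
  have e1 : ∀ᶠ k in (U : Filter ℕ), ∀ x ∈ {x | H.dist o x ≤ n}, ∀ y ∈ {x | H.dist o x ≤ n},
      (rep x k = rep y k → x = y) ∧ (H.Adj x y ↔ G.Adj (rep x k) (rep y k)) := by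
    refine (eventually_all_finite hfin).2 fun x _ => (eventually_all_finite hfin).2 fun y _ => ?_
    refine Eventually.and ?_ ?_
    · by_cases e : x = y
      · exact .of_forall fun _ _ => e
      · exact (Ultrafilter.eventually_not.2 fun h => e (heq _ _ h)).mono fun k hk h => absurd h hk
    · by_cases e : H.Adj x y
      · exact Eventually.mono e fun k hk => iff_of_true e hk
      · exact (Ultrafilter.eventually_not.2 e).mono fun k hk => iff_of_false e hk
  have e2 : ∀ᶠ k in (U : Filter ℕ), ∀ x ∈ {x | H.dist o x ≤ n}, G.dist (v k) (rep x k) ≤ n :=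
    (eventually_all_finite hfin).2 k3
  have e3 : ∀ᶠ k in (U : Filter ℕ), ∀ i, rep (β i) k = b k i := eventually_all.2 hβ
  have e4 : ∀ᶠ k in (U : Filter ℕ), n ≤ k := Nat.hyperfilter_le_atTop (eventually_ge_atTop n)
  obtain ⟨k, ⟨h1, h2⟩, ⟨h3, h4⟩, h5⟩ := ((e1.and e2).and ((e3.and e4).and ho)).exists
  refine ⟨k, h4, fun x => rep x k, ⟨⟨fun x hx => ?_, fun x hx y hy e => (h1 x hx y hy).1 e,
    fun w hw => ?_⟩, fun x y hx hy => (h1 x hx y hy).2⟩, h5⟩
  · change G.dist (rep o k) (rep x k) ≤ n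
    rw [h5]
    exact h2 x hx
  · change G.dist (rep o k) w ≤ n at hw
    rw [h5] at hw
    obtain ⟨i, rfl⟩ : w ∈ Set.range (b k) := hb k ▸ hw
    exact ⟨β i, hβ' i, h3 i⟩

theorem arm_anti_Lim {m n : ℕ} (h : m ≤ n) (o : W) : Arm H o n ⊆ Arm H o m :=
  fun _ ⟨w, h1, h2⟩ => ⟨w, h.trans h1, h2⟩

theorem lim_iff {D : ℕ} (hc : G.Connected) (hd : Deg G D) (p : unitInterval) :
    (∀ (W : Type) (H : SimpleGraph W) (o : W), H.Connected → (∀ n, ∃ f, Loc H o G n f) →
      setBernoulli Set.univ p {ω : Set W | {w | R H ω o w}.Infinite} = 0) ↔ Dec G p := by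
  have fin : ∀ {W : Type} {H : SimpleGraph W} {o : W} {n : ℕ} {f : W → V}, Loc H o G n f →
      {w | H.dist o w ≤ n}.Finite := fun h =>
    Set.Finite.of_injOn h.1.mapsTo h.1.injOn (ball V G D hc hd _ _).1
  constructor
  · intro h
    by_contra hn
    unfold Dec at hn
    push Not at hn
    obtain ⟨ε, hε, hv⟩ := hn
    choose v hv using hv
    obtain ⟨W, H, o, hH, hl⟩ := exists_Lim hc hd v
    have h0 := h W H o hH fun n => let ⟨_, _, f, hf, _⟩ := hl n; ⟨f, hf⟩
    have h1 : ∀ n, ENNReal.ofReal ε ≤ setBernoulli Set.univ p (Arm H o n) := by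
      intro n
      obtain ⟨k, hk, f, hf, e⟩ := hl n
      obtain ⟨g, hg, hgf⟩ := hf.symm
      have h2 := hg.le hc hH (ball V G D hc hd _ _).1 p
      rw [hgf o (by simp), e] at h2
      refine le_trans ?_ ((measure_mono (arm_anti_Lim hk _)).trans h2)
      exact ENNReal.ofReal_le_of_le_toReal (hv k).le
    have h2 := tendsto_measure_iInter_atTop (μ := setBernoulli Set.univ p) (s := Arm H o)
      (fun n => let ⟨_, _, _, hf, _⟩ := hl n; (arm_meas_Lim hH (fin hf)).nullMeasurableSet)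
      (fun m n hmn => arm_anti_Lim hmn o) ⟨0, measure_ne_top _ _⟩
    have h3 := ge_of_tendsto' h2 h1
    have h4 : ⋂ n, Arm H o n ⊆ {ω : Set W | {w | R H ω o w}.Infinite} := by
      intro ω hω hfin
      obtain ⟨M, hM⟩ := (hfin.image (H.dist o)).bddAbove
      obtain ⟨w, h5, h6⟩ := Set.mem_iInter.1 hω (M + 1)
      have := hM ⟨w, h6, rfl⟩
      omega
    have h5 := h3.trans ((measure_mono h4).trans h0.le)
    rw [nonpos_iff_eq_zero, ENNReal.ofReal_eq_zero] at h5
    linarith
  · intro h W H o hH hl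
    rw [← measureReal_eq_zero_iff]
    refine le_antisymm (le_of_forall_pos_le_add fun ε hε => ?_) measureReal_nonneg
    obtain ⟨n, hn⟩ := h ε hε
    obtain ⟨f, hf⟩ := hl n
    rw [zero_add]
    refine le_trans (ENNReal.toReal_mono (measure_ne_top _ _)
      (le_trans (measure_mono fun ω hω => ?_) (hf.le hH hc (fin hf) p))) (hn (f o))
    obtain ⟨w, h1, h2⟩ := Set.Infinite.exists_notMem_finite hω (fin hf)
    exact ⟨w, (not_le.1 h2).le, h1⟩

end Pool.Agent.MP_295da9_pr.U
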