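import Pool.Agent.Mg.F295da9a.G6a7d97
import Pool.Agent.Mg.F295da9a.Gf97760

set_option linter.all false

section

open MeasureTheory ProbabilityTheory Filter Topology

namespace Pool.Agent.MP_295da9_pr.U

theorem cech_Geo {X V : Type} [TopologicalSpace X] [NormalSpace X] [ParacompactSpace X]
    [SimplyConnectedSpace X] [LocallyPathConnectedSpace X] (St : V → Set X)
    (ho : ∀ v, IsOpen (St v)) (hc : ∀ x, ∃ v, x ∈ St v) (φ : V → V → ℤ)
    (hφ : ∀ x u v w, x ∈ St u → x ∈ St v → x ∈ St w → φ u v + φ v w = φ u w) :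
    ∃ h : V → X → ℝ, (∀ v, Continuous (h v)) ∧ (∀ v, ∀ x ∈ St v, ∃ n : ℤ, h v x = n) ∧
      ∀ u v x, x ∈ St u → x ∈ St v → h v x - h u x = φ u v := by
  obtain ⟨ρ, hρ⟩ := PartitionOfUnity.exists_isSubordinate isClosed_univ St ho
    (fun x _ => Set.mem_iUnion.2 (hc x))
  set g : V → X → ℝ := fun v x => ∑ᶠ w, ρ w x • (φ v w : ℝ) with hg
  have gc : ∀ v, Continuous (g v) := fun v =>
    ρ.continuous_finsum_smul (g := fun w _ => (φ v w : ℝ)) fun _ _ _ => continuousAt_const
  have gd : ∀ u v x, x ∈ St u → x ∈ St v → g u x - g v x = φ u v := fun u v x hu hv => by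
    have e1 := ρ.sum_finsupport_smul_eq_finsum (x₀ := x) (fun w _ => (φ u w : ℝ))
    have e2 := ρ.sum_finsupport_smul_eq_finsum (x₀ := x) (fun w _ => (φ v w : ℝ))
    have e3 := ρ.sum_finsupport (x₀ := x) (Set.mem_univ x)
    show (∑ᶠ w, ρ w x • (φ u w : ℝ)) - ∑ᶠ w, ρ w x • (φ v w : ℝ) = φ u v
    rw [← e1, ← e2, ← Finset.sum_sub_distrib, ← one_mul (φ u v : ℝ), ← e3, Finset.sum_mul]
    refine Finset.sum_congr rfl fun w hw => ?_
    have hw' : x ∈ St w := hρ w (subset_tsupport _ ((ρ.mem_finsupport x).1 hw))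
    rw [smul_eq_mul, smul_eq_mul, ← hφ x u v w hu hv hw']
    push_cast
    ring
  choose c hcx using hc
  have Fe : ∀ u, ∀ x ∈ St u, ((g (c x) x : ℝ) : AddCircle (1 : ℝ)) = (g u x : ℝ) :=
    fun u x hu => by
      have e : g (c x) x = g u x + (φ (c x) u : ℤ) • (1 : ℝ) := by
        rw [zsmul_eq_mul, mul_one, ← gd _ _ x (hcx x) hu]
        ring
      rw [e, AddCircle.coe_add, AddCircle.coe_zsmul, AddCircle.coe_period, smul_zero, add_zero]
  have Fc : Continuous fun x => ((g (c x) x : ℝ) : AddCircle (1 : ℝ)) := by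
    refine continuous_iff_continuousAt.2 fun x => ?_
    have h1 : Continuous fun y => ((g (c x) y : ℝ) : AddCircle (1 : ℝ)) :=
      (AddCircle.continuous_mk' (1 : ℝ)).comp (gc _)
    refine h1.continuousAt.congr ?_
    filter_upwards [(ho (c x)).mem_nhds (hcx x)] with y hy using (Fe _ y hy).symm
  obtain ⟨x0⟩ : Nonempty X := inferInstance
  obtain ⟨L, ⟨-, hL⟩, -⟩ := (AddCircle.isCoveringMap_coe (1 : ℝ)).existsUnique_continuousMap_lifts
    ⟨_, Fc⟩ x0 (g (c x0) x0) rfl
  refine ⟨fun v x => L x - g v x, fun v => L.continuous.sub (gc v), fun v x hx => ?_,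
    fun u v x hu hv => ?_⟩
  · have e : ((L x : ℝ) : AddCircle (1 : ℝ)) = (g v x : ℝ) := (congrFun hL x).trans (Fe v x hx)
    have e' : ((L x - g v x : ℝ) : AddCircle (1 : ℝ)) = 0 := by
      rw [AddCircle.coe_sub, e, sub_self]
    obtain ⟨n, hn⟩ := (AddCircle.coe_eq_zero_iff (1 : ℝ)).1 e'
    exact ⟨n, hn.symm.trans (by rw [zsmul_eq_mul, mul_one])⟩
  · rw [← gd u v x hu hv]
    ring

theorem const_Geo {X : Type} [TopologicalSpace X] {A : Set X} (hA : IsPreconnected A)
    {h : X → ℝ} (hc : Continuous h) (hi : ∀ x ∈ A, ∃ n : ℤ, h x = n) :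
    ∀ x ∈ A, ∀ y ∈ A, h x = h y := by
  have key : ∀ x ∈ A, ∀ y ∈ A, h y ≤ h x := fun x hx y hy => by
    by_contra hlt
    rw [not_le] at hlt
    obtain ⟨n, hn⟩ := hi x hx
    obtain ⟨m, hm⟩ := hi y hy
    have h1 : n < m := by
      rw [hn, hm] at hlt
      exact_mod_cast hlt
    have h2 : (n : ℝ) + 1 ≤ m := by exact_mod_cast h1
    obtain ⟨z, hz, e⟩ := hA.intermediate_value hx hy hc.continuousOn
      (show (n : ℝ) + 1 / 2 ∈ Set.Icc (h x) (h y) from ⟨by linarith, by linarith⟩)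
    obtain ⟨k, hk⟩ := hi z hz
    have h3 : ((2 * k : ℤ) : ℝ) = (2 * n + 1 : ℤ) := by
      push_cast
      linarith
    have h4 : 2 * k = 2 * n + 1 := by exact_mod_cast h3
    omega
  exact fun x hx y hy => le_antisymm (key y hy x hx) (key x hx y hy)

section

variable {E : Type} [NormedAddCommGroup E] [NormedSpace ℝ E]

/-- the open star of a point -/
def star_Geo (K : Geometry.SimplicialComplex ℝ E) (a : E) : Set K.space :=
  {x | ∀ s ∈ K.faces, x.1 ∈ convexHull ℝ (s : Set E) → a ∈ s}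

theorem open_Geo (K : Geometry.SimplicialComplex ℝ E)
    (hl : ∀ x ∈ K.space, ∃ N ∈ 𝓝 x,
      {s ∈ K.faces | (convexHull ℝ (s : Set E) ∩ N).Nonempty}.Finite) (a : E) :
    IsOpen (star_Geo K a) := by
  refine isOpen_iff_mem_nhds.2 fun x hx => ?_
  obtain ⟨N, hN, hf⟩ := hl x.1 x.2
  have h1 : ∀ s ∈ {s ∈ K.faces | (convexHull ℝ (s : Set E) ∩ N).Nonempty},
      ∀ᶠ y in 𝓝 x.1, y ∈ convexHull ℝ (s : Set E) → x.1 ∈ convexHull ℝ (s : Set E) :=
    fun s _ => by
      by_cases h : x.1 ∈ convexHull ℝ (s : Set E)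
      · exact Eventually.of_forall fun _ _ => h
      · filter_upwards [(s.finite_toSet.isClosed_convexHull ℝ).isOpen_compl.mem_nhds h] with y hy k
          using (hy k).elim
  have h2 := ((hf.eventually_all).2 h1).and hN
  filter_upwards [continuous_subtype_val.continuousAt.eventually h2] with y hy s hs k
  exact hx s hs (hy.1 s ⟨hs, y.1, k, hy.2⟩ k)

theorem cover_Geo (K : Geometry.SimplicialComplex ℝ E) (x : K.space) :
    ∃ a ∈ K.vertices, x ∈ star_Geo K a := by
  classical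
  have hex : ∃ n, ∃ s ∈ K.faces, x.1 ∈ convexHull ℝ (s : Set E) ∧ s.card = n := by
    obtain ⟨s, hs, hx⟩ := Geometry.SimplicialComplex.mem_space_iff.1 x.2
    exact ⟨_, s, hs, hx, rfl⟩
  obtain ⟨s, hs, hx, hn⟩ := Nat.find_spec hex
  obtain ⟨a, ha⟩ := Geometry.SimplicialComplex.nonempty_of_mem_faces hs
  refine ⟨a, Geometry.SimplicialComplex.down_closed hs (Finset.singleton_subset_iff.2 ha)
    (Finset.singleton_nonempty a), fun t ht hxt => ?_⟩
  have h1 := K.inter_subset_convexHull hs ht ⟨hx, hxt⟩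
  rw [← Finset.coe_inter] at h1
  have h2 : (s ∩ t).Nonempty := Finset.coe_nonempty.1 (convexHull_nonempty_iff.1 ⟨_, h1⟩)
  have h3 := Nat.find_min' hex ⟨s ∩ t,
    Geometry.SimplicialComplex.down_closed hs Finset.inter_subset_left h2, h1, rfl⟩
  have h4 : s ∩ t = s := Finset.eq_of_subset_of_card_le Finset.inter_subset_left (hn ▸ h3)
  exact (Finset.mem_inter.1 (h4.symm ▸ ha)).2

theorem pair_Geo (K : Geometry.SimplicialComplex ℝ E) {x : K.space} {a b : E}
    (ha : x ∈ star_Geo K a) (hb : x ∈ star_Geo K b) : ∃ s ∈ K.faces, (s : Set E) = {a, b} := by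
  classical
  obtain ⟨s, hs, hx⟩ := Geometry.SimplicialComplex.mem_space_iff.1 x.2
  refine ⟨{a, b}, Geometry.SimplicialComplex.down_closed hs ?_ (Finset.insert_nonempty _ _),
    Finset.coe_pair⟩
  exact Finset.insert_subset (ha s hs hx) (Finset.singleton_subset_iff.2 (hb s hs hx))

theorem half_Geo (K : Geometry.SimplicialComplex ℝ E) {s : Finset E} {a b : E} (hs : s ∈ K.faces)
    (he : (s : Set E) = {a, b}) (hab : a ≠ b) {h : K.space → ℝ} (hc : Continuous h)
    (hi : ∀ x ∈ star_Geo K a, ∃ n : ℤ, h x = n) {x m : K.space} (hx : x.1 = a)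
    (hm : m.1 = AffineMap.lineMap a b (1 / 2 : ℝ)) : m ∈ star_Geo K a ∧ h x = h m := by
  set A : Set E := (fun t : ℝ => AffineMap.lineMap a b t) '' Set.Ico 0 1 with hA
  have h1 : A ⊆ convexHull ℝ (s : Set E) := by
    rw [he, convexHull_pair, segment_eq_image_lineMap]
    exact Set.image_mono Set.Ico_subset_Icc_self
  have h2 : ∀ y : K.space, y.1 ∈ A → y ∈ star_Geo K a := fun y hy t ht hyt => by
    by_contra hat
    have h3 := K.inter_subset_convexHull hs ht ⟨h1 hy, hyt⟩
    have h4 : ((s : Set E) ∩ t) ⊆ {b} := by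
      rw [he]
      rintro z ⟨rfl | rfl, hz⟩
      · exact (hat hz).elim
      · rfl
    have h5 := convexHull_mono (𝕜 := ℝ) h4 h3
    rw [convexHull_singleton, Set.mem_singleton_iff] at h5
    obtain ⟨r, hr, e⟩ := hy
    rw [h5] at e
    exact (AffineMap.lineMap_eq_right_iff.1 e).elim hab hr.2.ne
  have h3 : IsPreconnected A :=
    isPreconnected_Ico.image _ AffineMap.lineMap_continuous.continuousOn
  have h4 : IsPreconnected ((Subtype.val : K.space → E) ⁻¹' A) := by
    rw [← IsInducing.subtypeVal.isPreconnected_image, Subtype.image_preimage_coe,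
      Set.inter_eq_self_of_subset_right
        (h1.trans (Geometry.SimplicialComplex.convexHull_subset_space hs))]
    exact h3
  have hx' : x.1 ∈ A := ⟨0, ⟨le_rfl, zero_lt_one⟩, by simp [hx]⟩
  have hm' : m.1 ∈ A := ⟨1 / 2, ⟨by norm_num, by norm_num⟩, hm.symm⟩
  exact ⟨h2 m hm', const_Geo h4 hc (fun y hy => hi y (h2 y hy)) x hx' m hm'⟩

end

theorem geo : GeoSt := by
  intro E _ _ K V G pos hinj hr hadj hl hsc hlp φ hφ
  have hp : ∀ v, pos v ∈ K.vertices := fun v => hr ▸ Set.mem_range_self v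
  have hps : ∀ v, pos v ∈ K.space := fun v =>
    Geometry.SimplicialComplex.vertices_subset_space (hp v)
  have hA : ∀ (x : K.space) u w, x ∈ star_Geo K (pos u) → x ∈ star_Geo K (pos w) →
      u = w ∨ G.Adj u w := fun x u w hu hw =>
    (em (u = w)).imp_right fun h => (hadj u w).2 ⟨h, pair_Geo K hu hw⟩
  obtain ⟨h, hc, hi, hd⟩ := cech_Geo (fun v => star_Geo K (pos v))
    (fun v => open_Geo K hl _) (fun x => by
      obtain ⟨a, ha, hx⟩ := cover_Geo K x
      rw [← hr] at ha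
      obtain ⟨v, rfl⟩ := ha
      exact ⟨v, hx⟩) φ
    (fun x u v w hu hv hw => hφ u v w (hA x u v hu hv) (hA x v w hv hw) (hA x u w hu hw))
  have hv : ∀ v, (⟨pos v, hps v⟩ : K.space) ∈ star_Geo K (pos v) := fun v s hs k =>
    (Geometry.SimplicialComplex.vertex_mem_convexHull_iff (hp v) hs).1 k
  choose f hf using fun v => hi v _ (hv v)
  refine ⟨f, fun u v huv => ?_⟩
  obtain ⟨hne, s, hs, he⟩ := (hadj u v).1 huv
  have hne' : pos u ≠ pos v := fun e => hne (hinj e)
  have hm : AffineMap.lineMap (pos u) (pos v) (1 / 2 : ℝ) ∈ K.space := by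
    refine Geometry.SimplicialComplex.convexHull_subset_space hs ?_
    rw [he, convexHull_pair, segment_eq_image_lineMap]
    exact ⟨1 / 2, ⟨by norm_num, by norm_num⟩, rfl⟩
  obtain ⟨m1, e1⟩ := half_Geo K hs he hne' (hc u) (hi u) (x := ⟨pos u, hps u⟩) (m := ⟨_, hm⟩)
    rfl rfl
  obtain ⟨m2, e2⟩ := half_Geo K hs (he.trans (Set.pair_comm _ _)) hne'.symm (hc v) (hi v)
    (x := ⟨pos v, hps v⟩) (m := ⟨_, hm⟩) rfl (by
      rw [← AffineMap.lineMap_apply_one_sub (pos u) (pos v)]
      norm_num)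
  have e := hd u v _ m1 m2
  rw [← e1, ← e2, hf, hf] at e
  exact_mod_cast e.symm

end Pool.Agent.MP_295da9_pr.U

end

section

/-! Complexes that are open in a simply connected space. -/

open MeasureTheory ProbabilityTheory Filter Topology

namespace Pool.Agent.MP_295da9_pr.U

theorem lift_GeoF {X Y : Type} [TopologicalSpace X] [TopologicalSpace Y] [T2Space Y]
    [SimplyConnectedSpace Y] [LocallyPathConnectedSpace Y] {e : X → Y} (he : IsOpenEmbedding e)
    {F : X → AddCircle (1 : ℝ)} (hF : Continuous F) {C : Set X} (hC : IsCompact C)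
    (h0 : ∀ x, x ∉ C → F x = 0) :
    ∃ L : X → ℝ, Continuous L ∧ ∀ x, ((L x : ℝ) : AddCircle (1 : ℝ)) = F x := by
  have h1 : Continuous (e.extend F 0) := by
    refine continuous_iff_continuousAt.2 fun y => ?_
    by_cases hy : y ∈ Set.range e
    · obtain ⟨x, rfl⟩ := hy
      rw [← he.continuousAt_iff, Function.extend_comp he.injective]
      exact hF.continuousAt
    · refine (continuousAt_const (y := (0 : AddCircle (1 : ℝ)))).congr ?_
      filter_upwards [(hC.image he.continuous).isClosed.isOpen_compl.mem_nhds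
        fun h => hy (Set.image_subset_range _ _ h)] with z hz
      by_cases hz' : ∃ x, e x = z
      · obtain ⟨x, rfl⟩ := hz'
        rw [he.injective.extend_apply, h0 x fun h => hz ⟨x, h, rfl⟩]
      · rw [Function.extend_apply' _ _ _ hz']
        rfl
  obtain ⟨y0⟩ : Nonempty Y := inferInstance
  obtain ⟨t, ht⟩ := QuotientAddGroup.mk_surjective (e.extend F 0 y0)
  obtain ⟨L, ⟨-, hL⟩, -⟩ := (AddCircle.isCoveringMap_coe (1 : ℝ)).existsUnique_continuousMap_lifts
    ⟨_, h1⟩ y0 t ht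
  exact ⟨fun x => L (e x), L.continuous.comp he.continuous,
    fun x => (congrFun hL (e x)).trans (he.injective.extend_apply F 0 x)⟩

theorem cech_GeoF {X Y V : Type} [TopologicalSpace X] [NormalSpace X] [ParacompactSpace X]
    [TopologicalSpace Y] [T2Space Y] [SimplyConnectedSpace Y] [LocallyPathConnectedSpace Y]
    {e : X → Y} (he : IsOpenEmbedding e) (St : V → Set X)
    (ho : ∀ v, IsOpen (St v)) (hc : ∀ x, ∃ v, x ∈ St v) (φ : V → V → ℤ)
    (hφ : ∀ x u v w, x ∈ St u → x ∈ St v → x ∈ St w → φ u v + φ v w = φ u w) {C : Set X}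
    (hC : IsCompact C) (h0 : ∀ x u v, x ∉ C → x ∈ St u → x ∈ St v → φ u v = 0) :
    ∃ h : V → X → ℝ, (∀ v, Continuous (h v)) ∧ (∀ v, ∀ x ∈ St v, ∃ n : ℤ, h v x = n) ∧
      ∀ u v x, x ∈ St u → x ∈ St v → h v x - h u x = φ u v := by
  obtain ⟨ρ, hρ⟩ := PartitionOfUnity.exists_isSubordinate isClosed_univ St ho
    (fun x _ => Set.mem_iUnion.2 (hc x))
  set g : V → X → ℝ := fun v x => ∑ᶠ w, ρ w x • (φ v w : ℝ) with hg
  have gc : ∀ v, Continuous (g v) := fun v =>
    ρ.continuous_finsum_smul (g := fun w _ => (φ v w : ℝ)) fun _ _ _ => continuousAt_const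
  have hSt : ∀ x, ∀ w ∈ ρ.finsupport x, x ∈ St w := fun x w hw =>
    hρ w (subset_tsupport _ ((ρ.mem_finsupport x).1 hw))
  have gd : ∀ u v x, x ∈ St u → x ∈ St v → g u x - g v x = φ u v := fun u v x hu hv => by
    have e1 := ρ.sum_finsupport_smul_eq_finsum (x₀ := x) (fun w _ => (φ u w : ℝ))
    have e2 := ρ.sum_finsupport_smul_eq_finsum (x₀ := x) (fun w _ => (φ v w : ℝ))
    have e3 := ρ.sum_finsupport (x₀ := x) (Set.mem_univ x)
    show (∑ᶠ w, ρ w x • (φ u w : ℝ)) - ∑ᶠ w, ρ w x • (φ v w : ℝ) = φ u v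
    rw [← e1, ← e2, ← Finset.sum_sub_distrib, ← one_mul (φ u v : ℝ), ← e3, Finset.sum_mul]
    refine Finset.sum_congr rfl fun w hw => ?_
    rw [smul_eq_mul, smul_eq_mul, ← hφ x u v w hu hv (hSt x w hw)]
    push_cast
    ring
  choose c hcx using hc
  have Fe : ∀ u, ∀ x ∈ St u, ((g (c x) x : ℝ) : AddCircle (1 : ℝ)) = (g u x : ℝ) :=
    fun u x hu => by
      have e : g (c x) x = g u x + (φ (c x) u : ℤ) • (1 : ℝ) := by
        rw [zsmul_eq_mul, mul_one, ← gd _ _ x (hcx x) hu]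
        ring
      rw [e, AddCircle.coe_add, AddCircle.coe_zsmul, AddCircle.coe_period, smul_zero, add_zero]
  have Fc : Continuous fun x => ((g (c x) x : ℝ) : AddCircle (1 : ℝ)) := by
    refine continuous_iff_continuousAt.2 fun x => ?_
    have h1 : Continuous fun y => ((g (c x) y : ℝ) : AddCircle (1 : ℝ)) :=
      (AddCircle.continuous_mk' (1 : ℝ)).comp (gc _)
    refine h1.continuousAt.congr ?_
    filter_upwards [(ho (c x)).mem_nhds (hcx x)] with y hy using (Fe _ y hy).symm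
  obtain ⟨L, hLc, hL⟩ := lift_GeoF he Fc hC fun x hx => by
    have e1 := ρ.sum_finsupport_smul_eq_finsum (x₀ := x) (fun w _ => (φ (c x) w : ℝ))
    have e2 : g (c x) x = 0 := by
      show (∑ᶠ w, ρ w x • (φ (c x) w : ℝ)) = 0
      rw [← e1]
      refine Finset.sum_eq_zero fun w hw => ?_
      rw [h0 x _ w hx (hcx x) (hSt x w hw), Int.cast_zero, smul_zero]
    rw [e2, AddCircle.coe_zero]
  refine ⟨fun v x => L x - g v x, fun v => hLc.sub (gc v), fun v x hx => ?_,
    fun u v x hu hv => ?_⟩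
  · have e' : ((L x - g v x : ℝ) : AddCircle (1 : ℝ)) = 0 := by
      rw [AddCircle.coe_sub, hL x, Fe v x hx, sub_self]
    obtain ⟨n, hn⟩ := (AddCircle.coe_eq_zero_iff (1 : ℝ)).1 e'
    exact ⟨n, hn.symm.trans (by rw [zsmul_eq_mul, mul_one])⟩
  · rw [← gd u v x hu hv]
    ring

theorem geoF {E : Type} [NormedAddCommGroup E] [NormedSpace ℝ E]
    (K : Geometry.SimplicialComplex ℝ E) {V : Type} (G : SimpleGraph V) (pos : V → E)
    (hinj : Function.Injective pos) (hr : Set.range pos = K.vertices)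
    (hadj : ∀ u v, G.Adj u v ↔ u ≠ v ∧ ∃ s ∈ K.faces, (s : Set E) = {pos u, pos v})
    (hl : ∀ x ∈ K.space, ∃ N ∈ 𝓝 x,
      {s ∈ K.faces | (convexHull ℝ (s : Set E) ∩ N).Nonempty}.Finite)
    {Y : Type} [TopologicalSpace Y] [T2Space Y] [SimplyConnectedSpace Y]
    [LocallyPathConnectedSpace Y] {e : K.space → Y} (he : IsOpenEmbedding e) : CocF G := by
  intro φ F hF hφ hφ0
  have hp : ∀ v, pos v ∈ K.vertices := fun v => hr ▸ Set.mem_range_self v
  have hps : ∀ v, pos v ∈ K.space := fun v =>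
    Geometry.SimplicialComplex.vertices_subset_space (hp v)
  have hA : ∀ (x : K.space) u w, x ∈ star_Geo K (pos u) → x ∈ star_Geo K (pos w) →
      u = w ∨ G.Adj u w := fun x u w hu hw =>
    (em (u = w)).imp_right fun h => (hadj u w).2 ⟨h, pair_Geo K hu hw⟩
  have hfin : ∀ u, {s ∈ K.faces | pos u ∈ s}.Finite := fun u => by
    obtain ⟨N, hN, hf⟩ := hl _ (hps u)
    exact hf.subset fun s hs => ⟨hs.1, pos u, subset_convexHull ℝ _ hs.2, mem_of_mem_nhds hN⟩
  have hC : IsCompact ((Subtype.val : K.space → E) ⁻¹'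
      ⋃ u ∈ F, ⋃ s ∈ {s ∈ K.faces | pos u ∈ s}, convexHull ℝ (s : Set E)) := by
    rw [Subtype.isCompact_iff, Subtype.image_preimage_coe, Set.inter_eq_self_of_subset_right
      (Set.iUnion₂_subset fun u _ => Set.iUnion₂_subset fun s hs =>
        Geometry.SimplicialComplex.convexHull_subset_space hs.1)]
    exact hF.isCompact_biUnion fun u _ => (hfin u).isCompact_biUnion fun s _ =>
      s.finite_toSet.isCompact_convexHull ℝ
  obtain ⟨h, hc, hi, hd⟩ := cech_GeoF he (fun v => star_Geo K (pos v))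
    (fun v => open_Geo K hl _) (fun x => by
      obtain ⟨a, ha, hx⟩ := cover_Geo K x
      rw [← hr] at ha
      obtain ⟨v, rfl⟩ := ha
      exact ⟨v, hx⟩) φ
    (fun x u v w hu hv hw => hφ u v w (hA x u v hu hv) (hA x v w hv hw) (hA x u w hu hw)) hC
    (fun x u v hx hu hv => hφ0 u v (fun huF => by
      obtain ⟨s, hs, hxs⟩ := Geometry.SimplicialComplex.mem_space_iff.1 x.2
      exact hx (Set.mem_biUnion huF (Set.mem_biUnion (show s ∈ {s ∈ K.faces | pos u ∈ s} from
        ⟨hs, hu s hs hxs⟩) hxs))) (hA x u v hu hv))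
  have hv : ∀ v, (⟨pos v, hps v⟩ : K.space) ∈ star_Geo K (pos v) := fun v s hs k =>
    (Geometry.SimplicialComplex.vertex_mem_convexHull_iff (hp v) hs).1 k
  choose f hf using fun v => hi v _ (hv v)
  refine ⟨f, fun u v huv => ?_⟩
  obtain ⟨hne, s, hs, he⟩ := (hadj u v).1 huv
  have hne' : pos u ≠ pos v := fun e => hne (hinj e)
  have hm : AffineMap.lineMap (pos u) (pos v) (1 / 2 : ℝ) ∈ K.space := by
    refine Geometry.SimplicialComplex.convexHull_subset_space hs ?_
    rw [he, convexHull_pair, segment_eq_image_lineMap]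
    exact ⟨1 / 2, ⟨by norm_num, by norm_num⟩, rfl⟩
  obtain ⟨m1, e1⟩ := half_Geo K hs he hne' (hc u) (hi u) (x := ⟨pos u, hps u⟩) (m := ⟨_, hm⟩)
    rfl rfl
  obtain ⟨m2, e2⟩ := half_Geo K hs (he.trans (Set.pair_comm _ _)) hne'.symm (hc v) (hi v)
    (x := ⟨pos v, hps v⟩) (m := ⟨_, hm⟩) rfl (by
      rw [← AffineMap.lineMap_apply_one_sub (pos u) (pos v)]
      norm_num)
  have e := hd u v _ m1 m2
  rw [← e1, ← e2, hf, hf] at e
  exact_mod_cast e.symm

end Pool.Agent.MP_295da9_pr.U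

end

section

/-! The contour estimate. -/

open MeasureTheory ProbabilityTheory Filter Topology
open scoped ENNReal

namespace Pool.Agent.MP_295da9_pr.U

variable {V : Type} {G : SimpleGraph V}

lemma closed_Pei {ι : Type*} (p : unitInterval) (F : Finset ι) :
    setBernoulli Set.univ p {ω : Set ι | ∀ x ∈ F, x ∉ ω} =
      (unitInterval.toNNReal (unitInterval.symm p) : ℝ≥0∞) ^ F.card := by
  rw [setBernoulli_apply']
  have : (fun p : ι → Prop => {i | p i}) ⁻¹' {ω : Set ι | ∀ x ∈ F, x ∉ ω}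
      = Set.pi F (fun _ => {False}) := by
    ext f; simp
  rw [this, Measure.infinitePi_pi _ (fun _ _ => MeasurableSet.of_discrete)]
  simp

lemma leave_Pei {K : Finset V} {l : List V} {s z : V} (q : G.Walk s z)
    (hq : ∀ x ∈ q.support, x ∈ (K : Set V)) (hs : s ∈ l) (hz : z ∉ l) :
    ∃ a ∈ l, ∃ b ∈ K, b ∉ l ∧ G.Adj a b := by
  induction q with
  | nil => exact absurd hs hz
  | @cons a b c h q ih =>
    by_cases hb : b ∈ l
    · exact ih (fun x hx => hq x (by simp [hx])) hb hz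
    · exact ⟨a, hs, b, hq b (by simp), hb, h⟩

lemma exists_tour_Pei [DecidableEq V] {s : V} {K : Finset V}
    (hK : Conn G K) (hs : s ∈ K) (n : ℕ) (hn : n + 1 ≤ K.card) :
    ∃ p : G.Walk s s, p.length = 2 * n ∧ p.support.toFinset ⊆ K ∧
      p.support.toFinset.card = n + 1 := by
  induction n with
  | zero => exact ⟨.nil, rfl, by simpa using hs, by simp⟩
  | succ n ih =>
    obtain ⟨p, h1, h2, h3⟩ := ih (by omega)
    obtain ⟨z, hz, hz'⟩ := Finset.exists_mem_notMem_of_card_lt_card (s := p.support.toFinset)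
      (t := K) (by omega)
    obtain ⟨a, ha, b, hb, hb', hab⟩ : ∃ a ∈ p.support, ∃ b ∈ K, b ∉ p.support ∧ G.Adj a b := by
      rw [List.mem_toFinset] at hz'
      obtain ⟨q, hq⟩ := hK s hs z hz
      exact leave_Pei q hq p.start_mem_support hz'
    have e := p.take_spec ha
    have e1 : ((p.takeUntil a ha).append (.cons hab (.cons hab.symm (p.dropUntil a ha)))
        ).support.toFinset = insert b p.support.toFinset := by
      ext t
      have e2 := (p.takeUntil a ha).mem_support_append_iff (t := t) (p.dropUntil a ha)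
      have e3 := (p.dropUntil a ha).start_mem_support
      rw [e] at e2
      simp only [List.mem_toFinset, SimpleGraph.Walk.mem_support_append_iff,
        SimpleGraph.Walk.support_cons, List.mem_cons, Finset.mem_insert, e2]
      constructor
      · rintro (h | rfl | h | h) <;> tauto
      · tauto
    refine ⟨_, ?_, e1 ▸ Finset.insert_subset hb h2, ?_⟩
    · have e2 := congrArg SimpleGraph.Walk.length e
      simp only [SimpleGraph.Walk.length_append, SimpleGraph.Walk.length_cons] at e2 ⊢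
      omega
    · rw [e1, Finset.card_insert_of_notMem (by simpa using hb'), h3]

lemma card_walks_Pei [DecidableEq V] [G.LocallyFinite] {D : ℕ} (h : ∀ v, G.degree v ≤ D) (n : ℕ)
    (u v : V) : (G.finsetWalkLength n u v).card ≤ D ^ n := by
  induction n generalizing u with
  | zero =>
    unfold SimpleGraph.finsetWalkLength
    split_ifs with e
    · subst e; simp
    · simp
  | succ n ih =>
    unfold SimpleGraph.finsetWalkLength
    refine (Finset.card_biUnion_le_card_mul _ _ (D ^ n) fun w _ => by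
      rw [Finset.card_map]; exact ih w).trans ?_
    rw [Finset.card_univ, G.card_neighborSet_eq_degree, pow_succ']
    exact Nat.mul_le_mul_right _ (h u)

theorem pei : PeiSt := by
  intro V G D v B S p hD hdeg hB hcl hp
  classical
  have : G.LocallyFinite := fun v => (hdeg v).1.fintype
  have hd : ∀ v, G.degree v ≤ D := fun v => by
    rw [← G.card_neighborSet_eq_degree, ← Nat.card_eq_fintype_card]
    exact (hdeg v).2
  set r : ℝ≥0∞ := (unitInterval.toNNReal (unitInterval.symm p) : ℝ≥0∞) with hr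
  have r1 : (D : ℝ≥0∞) ^ 3 * r ≤ 4⁻¹ := by
    rw [ENNReal.le_inv_iff_mul_le, hr]
    have : (D : NNReal) ^ 3 * unitInterval.toNNReal (unitInterval.symm p) * 4 ≤ 1 := by
      rw [← NNReal.coe_le_coe]
      simp only [NNReal.coe_mul, NNReal.coe_pow, NNReal.coe_natCast, unitInterval.coe_toNNReal,
        unitInterval.coe_symm_eq, NNReal.coe_ofNat, NNReal.coe_one]
      linarith
    exact_mod_cast this
  have D1 : (1 : ℝ≥0∞) ≤ D := by exact_mod_cast hD
  have r2 : r ≤ 4⁻¹ := le_trans (le_mul_of_one_le_left' (one_le_pow₀ D1)) r1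
  let C : ℕ → Set (Set V) := fun n => ⋃ s ∈ B n, ⋃ q ∈ (G.finsetWalkLength (2 * n) s s).filter
    fun q => q.support.toFinset.card = n + 1, {ω | ∀ x ∈ q.support.toFinset, x ∉ ω}
  have h1 : ∀ n, setBernoulli Set.univ p (C n) ≤ 4⁻¹ * 2⁻¹ ^ n := fun n => by
    refine (measure_biUnion_finset_le _ _).trans ((Finset.sum_le_card_nsmul _ _
      ((D : ℝ≥0∞) ^ (2 * n) * r ^ (n + 1)) fun s _ => ?_).trans ?_)
    · refine (measure_biUnion_finset_le _ _).trans ((Finset.sum_le_card_nsmul _ _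
        (r ^ (n + 1)) fun q hq => ?_).trans ?_)
      · rw [closed_Pei, (Finset.mem_filter.1 hq).2]
      · rw [nsmul_eq_mul]
        refine mul_le_mul_left ?_ _
        exact_mod_cast (Finset.card_filter_le _ _).trans (card_walks_Pei hd _ s s)
    · rw [nsmul_eq_mul]
      calc _ ≤ (D : ℝ≥0∞) ^ (n + 1) * (D ^ (2 * (n + 1)) * r ^ (n + 1)) :=
            mul_le_mul' (by exact_mod_cast hB n)
              (mul_le_mul_left (pow_le_pow_right₀ D1 (by omega)) _)
        _ = (D ^ 3 * r) ^ (n + 1) := by ring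
        _ ≤ 4⁻¹ * 2⁻¹ ^ n := by
            rw [pow_succ']
            exact mul_le_mul' r1 (pow_le_pow_left' (r1.trans (ENNReal.inv_le_inv.2 (by norm_num))) n)
  have h2 : Set.univ ⊆ S ∪ ({ω | ∀ x ∈ ({v} : Finset V), x ∉ ω} ∪ ⋃ n, C n) := by
    intro ω _
    by_cases hA : ω ∈ S
    · exact .inl hA
    by_cases hv : v ∈ ω
    swap
    · exact .inr (.inl (by simpa using hv))
    obtain ⟨W, n, a1, a2, a3, s, hs', hs⟩ := hcl ω hv hA
    obtain ⟨q, q1, q2, q3⟩ := exists_tour_Pei a1 hs n a2.ge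
    exact .inr (.inr (Set.mem_iUnion.2 ⟨n, Set.mem_biUnion hs' (Set.mem_biUnion
      (Finset.mem_filter.2 ⟨SimpleGraph.mem_finsetWalkLength_iff.2 q1, q3⟩)
      fun x hx => a3 x (q2 hx))⟩))
  have h3 := (measure_mono (μ := setBernoulli Set.univ p) h2).trans ((measure_union_le _ _).trans
    (add_le_add le_rfl ((measure_union_le _ _).trans (add_le_add le_rfl
      ((measure_iUnion_le _).trans (ENNReal.tsum_le_tsum h1))))))
  rw [closed_Pei, ENNReal.tsum_mul_left, ENNReal.tsum_geometric_two, measure_univ,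
    Finset.card_singleton, pow_one] at h3
  have h4 := ENNReal.toReal_mono (by finiteness)
    (h3.trans (add_le_add le_rfl (add_le_add r2 le_rfl)))
  rw [ENNReal.toReal_add (by finiteness) (by finiteness),
    ENNReal.toReal_add (by finiteness) (by finiteness)] at h4
  norm_num at h4
  rw [Measure.real]
  linarith

end Pool.Agent.MP_295da9_pr.U

end

section

/-! Uniform decay of the arm probabilities bounds the growth. -/

open MeasureTheory ProbabilityTheory Filter Topology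

namespace Pool.Agent.MP_295da9_pr.U

variable {V : Type}

/-- joined to a descendant at depth `j` -/
def EE_Exp (ch : V → Finset V) : ℕ → V → Set (Set V)
  | 0, u => {ω | u ∈ ω}
  | j + 1, u => {ω | u ∈ ω} ∩ {ω | ∃ c ∈ ch u, ω ∈ EE_Exp ch j c}

/-- the descendants of depth at most `j` -/
def DD_Exp [DecidableEq V] (ch : V → Finset V) : ℕ → V → Finset V
  | 0, u => {u}
  | j + 1, u => {u} ∪ (ch u).biUnion (DD_Exp ch j)

/-- the descendants of depth `j` -/
def LL_Exp [DecidableEq V] (ch : V → Finset V) : ℕ → V → Finset V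
  | 0, u => {u}
  | j + 1, u => (ch u).biUnion (LL_Exp ch j)

lemma one_Exp (p : unitInterval) (u : V) :
    (setBernoulli Set.univ p).real {ω : Set V | u ∈ ω} = p := by
  rw [measureReal_def, setBernoulli_apply']
  have : (fun p : V → Prop => {i | p i}) ⁻¹' {ω : Set V | u ∈ ω}
      = Set.pi ({u} : Finset V) (fun _ => {True}) := by
    ext f; simp
  rw [this, Measure.infinitePi_pi _ (fun _ _ => MeasurableSet.of_discrete)]
  simp

lemma dep_one_Exp (u : V) : Dep {u} {ω : Set V | u ∈ ω} :=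
  fun _ _ h hu => (h u (Finset.mem_singleton_self u)).1 hu

lemma dep_un_Exp [DecidableEq V] {s : Finset V} {D : V → Finset V} {F : V → Set (Set V)}
    (h : ∀ c, Dep (D c) (F c)) : Dep (s.biUnion D) {ω | ∃ c ∈ s, ω ∈ F c} :=
  fun ω ω' h1 ⟨c, hc, h2⟩ =>
    ⟨c, hc, h c ω ω' (fun x hx => h1 x (Finset.mem_biUnion.2 ⟨c, hc, hx⟩)) h2⟩

lemma dep_Exp [DecidableEq V] (ch : V → Finset V) (j : ℕ) :
    ∀ u, Dep (DD_Exp ch j u) (EE_Exp ch j u) := by
  induction j with
  | zero => exact dep_one_Exp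
  | succ j ih =>
    exact fun u ω ω' h h1 =>
      ⟨dep_one_Exp u ω ω' (fun x hx => h x (Finset.mem_union_left _ hx)) h1.1,
        dep_un_Exp ih ω ω' (fun x hx => h x (Finset.mem_union_right _ hx)) h1.2⟩

lemma un_Exp (hI : IndSt) [DecidableEq V] (p : unitInterval) {D : V → Finset V}
    {F : V → Set (Set V)} (h : ∀ c, Dep (D c) (F c)) (s : Finset V) :
    (∀ c ∈ s, ∀ c' ∈ s, c ≠ c' → Disjoint (D c) (D c')) →
    (1 - (setBernoulli Set.univ p).real {ω | ∃ c ∈ s, ω ∈ F c}) *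
      ∑ c ∈ s, (setBernoulli Set.univ p).real (F c) ≤
      (setBernoulli Set.univ p).real {ω | ∃ c ∈ s, ω ∈ F c} := by
  induction s using Finset.induction_on with
  | empty => intro _; simp
  | insert c s hc ih =>
    intro hd
    have h1 := ih fun a ha b hb => hd a (Finset.mem_insert_of_mem ha) b (Finset.mem_insert_of_mem hb)
    have h2 : {ω | ∃ a ∈ insert c s, ω ∈ F a} = F c ∪ {ω | ∃ a ∈ s, ω ∈ F a} := by
      ext ω; simp
    obtain ⟨h3, h4⟩ := hI V p (D c) (s.biUnion D) (F c) {ω | ∃ a ∈ s, ω ∈ F a} (h c)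
    have h5 := h4 (dep_un_Exp h) ((Finset.disjoint_biUnion_right _ _ _).2 fun a ha =>
      hd c (Finset.mem_insert_self _ _) a (Finset.mem_insert_of_mem ha) fun e => hc (e ▸ ha))
    have h6 := measureReal_union_add_inter' (μ := setBernoulli Set.univ p)
      (t := {ω | ∃ a ∈ s, ω ∈ F a}) h3
    rw [h2, Finset.sum_insert hc, eq_sub_of_add_eq h6, h5]
    have a0 : 0 ≤ (setBernoulli Set.univ p).real (F c) := measureReal_nonneg
    have a1 : (setBernoulli Set.univ p).real (F c) ≤ 1 := measureReal_le_one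
    have b0 : 0 ≤ (setBernoulli Set.univ p).real {ω | ∃ a ∈ s, ω ∈ F a} := measureReal_nonneg
    have b1 : (setBernoulli Set.univ p).real {ω | ∃ a ∈ s, ω ∈ F a} ≤ 1 := measureReal_le_one
    generalize (setBernoulli Set.univ p).real (F c) = a at *
    generalize (setBernoulli Set.univ p).real {ω | ∃ a ∈ s, ω ∈ F a} = b at *
    generalize ∑ c ∈ s, (setBernoulli Set.univ p).real (F c) = t at *
    have k1 := mul_le_mul_of_nonneg_left h1 (sub_nonneg.2 a1)
    have k2 : (1 - a) * (1 - b) ≤ 1 := mul_le_one₀ (by linarith) (by linarith) (by linarith)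
    have k3 := mul_le_mul_of_nonneg_right k2 a0
    nlinarith

lemma anc_Exp [DecidableEq V] {ch : V → Finset V} {par : V → V} {h : V → ℕ}
    (H : ∀ u, ∀ c ∈ ch u, par c = u ∧ h c = h u + 1) (j : ℕ) :
    ∀ u, ∀ w ∈ DD_Exp ch j u, ∃ i, par^[i] w = u ∧ h w = h u + i := by
  induction j with
  | zero => exact fun u w hw => ⟨0, Finset.mem_singleton.1 hw, by rw [Finset.mem_singleton.1 hw]; rfl⟩
  | succ j ih =>
    intro u w hw
    rcases Finset.mem_union.1 hw with hw | hw
    · exact ⟨0, Finset.mem_singleton.1 hw, by rw [Finset.mem_singleton.1 hw]; rfl⟩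
    · obtain ⟨c, hc, hw⟩ := Finset.mem_biUnion.1 hw
      obtain ⟨i, h1, h2⟩ := ih c w hw
      refine ⟨i + 1, by rw [Function.iterate_succ_apply', h1, (H u c hc).1], ?_⟩
      have := (H u c hc).2
      omega

lemma step_Exp (hI : IndSt) [DecidableEq V] (p : unitInterval) {ch : V → Finset V} {par : V → V}
    {h : V → ℕ} (H : ∀ u, ∀ c ∈ ch u, par c = u ∧ h c = h u + 1) (j : ℕ) (u : V) :
    ((p : ℝ) - (setBernoulli Set.univ p).real (EE_Exp ch (j + 1) u)) *
      ∑ c ∈ ch u, (setBernoulli Set.univ p).real (EE_Exp ch j c) ≤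
      (setBernoulli Set.univ p).real (EE_Exp ch (j + 1) u) := by
  have h1 := un_Exp hI p (dep_Exp ch j) (ch u) fun c hc c' hc' hne => by
    refine Finset.disjoint_left.2 fun w hw hw' => hne ?_
    obtain ⟨i, k1, k2⟩ := anc_Exp H j c w hw
    obtain ⟨i', k3, k4⟩ := anc_Exp H j c' w hw'
    have := (H u c hc).2
    have := (H u c' hc').2
    obtain rfl : i = i' := by omega
    exact k1.symm.trans k3
  have h2 := (hI V p {u} ((ch u).biUnion (DD_Exp ch j)) _ {ω | ∃ c ∈ ch u, ω ∈ EE_Exp ch j c}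
    (dep_one_Exp u)).2 (dep_un_Exp (dep_Exp ch j)) (Finset.disjoint_singleton_left.2 fun hu => by
      obtain ⟨c, hc, hw⟩ := Finset.mem_biUnion.1 hu
      obtain ⟨i, -, k2⟩ := anc_Exp H j c u hw
      have := (H u c hc).2
      omega)
  rw [one_Exp] at h2
  rw [EE_Exp, h2, ← mul_one_sub, mul_assoc]
  exact mul_le_mul_of_nonneg_left h1 p.2.1

lemma low_Exp (hI : IndSt) [DecidableEq V] (p : unitInterval) {ch : V → Finset V} {par : V → V}
    {h : V → ℕ} (H : ∀ u, ∀ c ∈ ch u, par c = u ∧ h c = h u + 1) {D n0 : ℕ} {m : ℝ} (hm0 : 0 ≤ m)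
    (hm1 : m ≤ 1) (hD : ∀ u, (ch u).card ≤ D)
    (hn : ∀ j u, n0 ≤ j → (setBernoulli Set.univ p).real (EE_Exp ch j u) ≤ p - m) (j : ℕ) :
    ∀ u, (p : ℝ) * ((p / (D + 1)) ^ min j n0 * m ^ j) * (LL_Exp ch j u).card ≤
      (setBernoulli Set.univ p).real (EE_Exp ch j u) := by
  have p0 : (0 : ℝ) ≤ p := p.2.1
  have p1 : (p : ℝ) ≤ 1 := p.2.2
  have d0 : (0 : ℝ) < D + 1 := by positivity
  have k0 : (0 : ℝ) ≤ p / (D + 1) := by positivity
  have k1 : (p : ℝ) / (D + 1) ≤ 1 := (div_le_one d0).2 (by linarith [Nat.cast_nonneg (α := ℝ) D])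
  induction j with
  | zero => intro u; simp [LL_Exp, EE_Exp, one_Exp]
  | succ j ih =>
    intro u
    have h1 := step_Exp hI p H j u
    have h2 : (p : ℝ) * ((p / (D + 1)) ^ min j n0 * m ^ j) * (LL_Exp ch (j + 1) u).card ≤
        ∑ c ∈ ch u, (setBernoulli Set.univ p).real (EE_Exp ch j c) := by
      refine le_trans ?_ (Finset.sum_le_sum fun c _ => ih c)
      rw [← Finset.mul_sum]
      refine mul_le_mul_of_nonneg_left ?_ (by positivity)
      exact_mod_cast Finset.card_biUnion_le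
    have h3 : ∑ c ∈ ch u, (setBernoulli Set.univ p).real (EE_Exp ch j c) ≤ D := by
      refine (Finset.sum_le_card_nsmul _ _ 1 fun c _ => measureReal_le_one).trans ?_
      rw [nsmul_eq_mul, mul_one]
      exact_mod_cast hD u
    have t0 : 0 ≤ ∑ c ∈ ch u, (setBernoulli Set.univ p).real (EE_Exp ch j c) :=
      Finset.sum_nonneg fun _ _ => measureReal_nonneg
    have a0 : 0 ≤ (setBernoulli Set.univ p).real (EE_Exp ch (j + 1) u) := measureReal_nonneg
    have h4 := hn (j + 1) u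
    generalize (setBernoulli Set.univ p).real (EE_Exp ch (j + 1) u) = a at *
    generalize ∑ c ∈ ch u, (setBernoulli Set.univ p).real (EE_Exp ch j c) = t at *
    have N0 : (0 : ℝ) ≤ (LL_Exp ch (j + 1) u).card := Nat.cast_nonneg _
    generalize ((LL_Exp ch (j + 1) u).card : ℝ) = N at *
    rcases le_or_gt n0 (j + 1) with hj | hj
    · have e1 : m * t ≤ a := (mul_le_mul_of_nonneg_right (by linarith [h4 hj]) t0).trans h1
      have e2 : ((p : ℝ) / (D + 1)) ^ min (j + 1) n0 ≤ (p / (D + 1)) ^ min j n0 :=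
        pow_le_pow_of_le_one k0 k1 (min_le_min_right _ (Nat.le_succ j))
      calc (p : ℝ) * ((p / (D + 1)) ^ min (j + 1) n0 * m ^ (j + 1)) * N
          ≤ p * ((p / (D + 1)) ^ min j n0 * m ^ (j + 1)) * N := by gcongr
        _ = m * (p * ((p / (D + 1)) ^ min j n0 * m ^ j) * N) := by ring
        _ ≤ m * t := by gcongr
        _ ≤ a := e1
    · have e1 : (p : ℝ) / (D + 1) * t ≤ a := by
        rw [div_mul_eq_mul_div, div_le_iff₀ d0]
        nlinarith [mul_le_mul_of_nonneg_left h3 a0]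
      rw [min_eq_left (by omega : j ≤ n0)] at h2
      rw [min_eq_left hj.le]
      calc (p : ℝ) * ((p / (D + 1)) ^ (j + 1) * m ^ (j + 1)) * N
          = m * (p / (D + 1) * (p * ((p / (D + 1)) ^ j * m ^ j) * N)) := by ring
        _ ≤ 1 * (p / (D + 1) * t) := by gcongr
        _ ≤ a := by rwa [one_mul]

lemma arm_Exp {G : SimpleGraph V} {ch : V → Finset V} {h : V → ℕ}
    (H : ∀ u, ∀ c ∈ ch u, G.Adj u c ∧ h c = h u + 1) {ω : Set V} (j : ℕ) :
    ∀ u, ω ∈ EE_Exp ch j u → ∃ w, h w = h u + j ∧ R G ω u w := by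
  induction j with
  | zero => exact fun u hu => ⟨u, rfl, R.refl hu⟩
  | succ j ih =>
    rintro u ⟨hu, c, hc, h1⟩
    obtain ⟨w, h2, h3⟩ := ih c h1
    refine ⟨w, ?_, R.head (H u c hc).1 hu h3⟩
    have := (H u c hc).2
    omega

lemma ll_Exp [DecidableEq V] {ch : V → Finset V} {w c : V} (hc : c ∈ ch w) (j : ℕ) :
    ∀ u, w ∈ LL_Exp ch j u → c ∈ LL_Exp ch (j + 1) u := by
  induction j with
  | zero =>
    intro u hu
    obtain rfl := Finset.mem_singleton.1 hu
    exact Finset.mem_biUnion.2 ⟨c, hc, Finset.mem_singleton_self c⟩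
  | succ j ih =>
    intro u hu
    obtain ⟨a, ha, h1⟩ := Finset.mem_biUnion.1 hu
    exact Finset.mem_biUnion.2 ⟨a, ha, ih a h1⟩

lemma par_Exp {G : SimpleGraph V} (hc : G.Connected) (o w : V) :
    ∃ x, w ≠ o → G.Adj x w ∧ G.dist o w = G.dist o x + 1 := by
  obtain ⟨q, hq⟩ := hc.exists_walk_length_eq_dist w o
  cases q with
  | nil => exact ⟨o, fun h => absurd rfl h⟩
  | @cons _ x _ h q =>
    refine ⟨x, fun _ => ⟨h.symm, ?_⟩⟩
    have h1 := SimpleGraph.dist_le q
    have h2 := hc.dist_triangle (u := w) (v := x) (w := o)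
    rw [SimpleGraph.dist_eq_one_iff_adj.2 h] at h2
    rw [SimpleGraph.Walk.length_cons] at hq
    rw [G.dist_comm (u := o), G.dist_comm (u := o)]
    omega

theorem expo (hI : IndSt) : ExpSt := by
  intro V G D hc hD hdec l hl
  classical
  have l0 : 0 < l := by linarith
  have m0 : 0 < l⁻¹ := inv_pos.2 l0
  have m1 : l⁻¹ < 1 := inv_lt_one_of_one_lt₀ hl
  let p : unitInterval := ⟨(2 + l⁻¹) / 3, by linarith, by linarith⟩
  have pe : (p : ℝ) = (2 + l⁻¹) / 3 := rfl
  obtain ⟨n0, hn0⟩ := hdec p (show (p : ℝ) < 1 by rw [pe]; linarith) ((1 - l⁻¹) / 3) (by linarith)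
  have p0 : (0 : ℝ) < p := by rw [pe]; linarith
  have d0 : (0 : ℝ) < D + 1 := by positivity
  have k0 : (0 : ℝ) < p / (D + 1) := by positivity
  have k1 : (p : ℝ) / (D + 1) ≤ 1 :=
    (div_le_one d0).2 (by linarith [Nat.cast_nonneg (α := ℝ) D, p.2.2])
  refine ⟨((p : ℝ) * ((p : ℝ) / (D + 1)) ^ n0)⁻¹ * (l / (l - 1)), fun o n => ?_⟩
  choose par hpar using par_Exp hc o
  let ch : V → Finset V := fun u => (hD u).1.toFinset.filter fun c => c ≠ o ∧ par c = u
  have hch : ∀ u, ∀ c ∈ ch u, G.Adj u c ∧ par c = u ∧ G.dist o c = G.dist o u + 1 := by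
    intro u c h
    obtain ⟨-, h1, rfl⟩ := Finset.mem_filter.1 h
    exact ⟨(hpar c h1).1, rfl, (hpar c h1).2⟩
  have hcard : ∀ u, (ch u).card ≤ D := fun u => (Finset.card_filter_le _ _).trans
    ((Set.ncard_eq_toFinset_card _ (hD u).1).symm.trans_le (hD u).2)
  have hsm : ∀ j u, n0 ≤ j → (setBernoulli Set.univ p).real (EE_Exp ch j u) ≤ p - l⁻¹ := by
    intro j u hj
    refine (measureReal_mono fun ω hω => ?_).trans ((hn0 u).trans (by rw [pe]; linarith))
    obtain ⟨w, h1, h2⟩ := arm_Exp (h := G.dist o) (fun u c h => ⟨(hch u c h).1, (hch u c h).2.2⟩)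
      j u hω
    have := hc.dist_triangle (u := o) (v := u) (w := w)
    exact ⟨w, by omega, h2⟩
  have hN : ∀ j, ((LL_Exp ch j o).card : ℝ) ≤ ((p : ℝ) * ((p : ℝ) / (D + 1)) ^ n0)⁻¹ * l ^ j := by
    intro j
    have h1 := (low_Exp hI p (h := G.dist o) (fun u c h => (hch u c h).2) m0.le m1.le hcard hsm
      j o).trans measureReal_le_one
    have h2 : ((p : ℝ) / (D + 1)) ^ n0 ≤ (p / (D + 1)) ^ min j n0 :=
      pow_le_pow_of_le_one k0.le k1 (min_le_right _ _)
    rw [le_inv_mul_iff₀ (by positivity)]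
    calc (p : ℝ) * (p / (D + 1)) ^ n0 * (LL_Exp ch j o).card
        ≤ p * (p / (D + 1)) ^ min j n0 * (LL_Exp ch j o).card := by gcongr
      _ = p * ((p / (D + 1)) ^ min j n0 * l⁻¹ ^ j) * (LL_Exp ch j o).card * l ^ j := by
        rw [inv_pow]; field_simp
      _ ≤ 1 * l ^ j := by gcongr
      _ = l ^ j := one_mul _
  have hL : ∀ j w, G.dist o w = j → w ∈ LL_Exp ch j o := by
    intro j
    induction j with
    | zero => exact fun w hw => Finset.mem_singleton.2 (hc.dist_eq_zero_iff.1 hw).symm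
    | succ j ih =>
      intro w hw
      have h1 : w ≠ o := fun e => by rw [e, SimpleGraph.dist_self] at hw; omega
      have h2 := hpar w h1
      exact ll_Exp (Finset.mem_filter.2 ⟨(hD _).1.mem_toFinset.2 h2.1, h1, rfl⟩) j o
        (ih _ (by omega))
  have h1 : {w | G.dist o w ≤ n}.ncard ≤ ∑ j ∈ Finset.range (n + 1), (LL_Exp ch j o).card := by
    refine le_trans ?_ (Finset.card_biUnion_le (t := fun j => LL_Exp ch j o))
    rw [← Set.ncard_coe_finset]
    exact Set.ncard_le_ncard (fun w hw => Finset.mem_coe.2 (Finset.mem_biUnion.2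
      ⟨_, Finset.mem_range.2 (Nat.lt_succ_of_le hw), hL _ w rfl⟩)) (Finset.finite_toSet _)
  have h2 : ∑ j ∈ Finset.range (n + 1), l ^ j ≤ l / (l - 1) * l ^ n := by
    rw [geom_sum_eq hl.ne', div_mul_eq_mul_div, pow_succ']
    exact div_le_div_of_nonneg_right (by linarith) (by linarith)
  calc ({w | G.dist o w ≤ n}.ncard : ℝ)
      ≤ ∑ j ∈ Finset.range (n + 1), ((LL_Exp ch j o).card : ℝ) := by exact_mod_cast h1
    _ ≤ ∑ j ∈ Finset.range (n + 1), ((p : ℝ) * ((p : ℝ) / (D + 1)) ^ n0)⁻¹ * l ^ j :=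
      Finset.sum_le_sum fun j _ => hN j
    _ ≤ _ := by
      rw [← Finset.mul_sum, mul_assoc]
      exact mul_le_mul_of_nonneg_left h2 (by positivity)

end Pool.Agent.MP_295da9_pr.U

end

section

/-! The classification. -/

open MeasureTheory ProbabilityTheory Filter Topology

namespace Pool.Agent.MP_295da9_pr.U

theorem main {E : Type} [NormedAddCommGroup E] [NormedSpace ℝ E]
    (K : Geometry.SimplicialComplex ℝ E) {Y : Type} [TopologicalSpace Y] [T2Space Y]
    [SimplyConnectedSpace Y] [LocallyPathConnectedSpace Y] {e : K.space → Y}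
    (he : IsOpenEmbedding e) (h4 : ∀ x ∈ K.space, ∃ N ∈ 𝓝 x,
      {s ∈ K.faces | (convexHull ℝ (s : Set E) ∩ N).Nonempty}.Finite)
    {V : Type} (G : SimpleGraph V) (pos : V → E)
    (h1 : Function.Injective pos) (h2 : Set.range pos = K.vertices)
    (h3 : ∀ u v, G.Adj u v ↔ u ≠ v ∧ ∃ s ∈ K.faces, (s : Set E) = {pos u, pos v})
    (hc : G.Connected) (D : ℕ) (hd : Deg G D) :
    (∀ (W : Type) (H : SimpleGraph W) (o : W), H.Connected → (∀ n, ∃ f, Loc H o G n f) →
      ∀ p : unitInterval, p < 1 →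
        setBernoulli Set.univ p {ω : Set W | {w | R H ω o w}.Infinite} = 0) ↔ QT G ∧ Sub G := by
  rw [← asm manA manB pei (dec ball ind) (expo ind) hc hd (geoF K G pos h1 h2 h3 h4 he)]
  exact ⟨fun h p hp => (lim_iff hc hd p).1 fun W H o hH hl => h W H o hH hl p hp,
    fun h W H o hH hl p hp => (lim_iff hc hd p).2 (h p hp) W H o hH hl⟩

end Pool.Agent.MP_295da9_pr.U

end
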